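import Pool.Agent.H73.Avr.Descent

/-!
# Elimination of odd functions, with coefficients in `ℤ/2`

Chains of the join of copies of the two point set; the vertices of type `0` and `1` are fixed
by the involution, the two vertices of every other type are exchanged.
-/

namespace Pool.Agent.H71.AV

open Pool.Agent.H73.Avr

theorem add_self_Ch : ∀ M (x : Ch 2 M), x + x = 0
  | 0, x => CharTwo.add_self_eq_zero (R := ZMod 2) x
  | (M + 1), x => Ch.ext (by rw [Ch.add_fst, add_self_Ch M]; rfl)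
      (fun h => by rw [Ch.add_snd, add_self_Ch M]; rfl)

theorem neg_Ch (M : ℕ) (x : Ch 2 M) : -x = x := by
  have h := add_self_Ch M x
  exact neg_eq_of_add_eq_zero_left h

theorem sub_Ch (M : ℕ) (x y : Ch 2 M) : x - y = x + y := by
  rw [sub_eq_add_neg, neg_Ch]

/-- the action of the involution: types `0` and `1` are fixed -/
noncomputable def sg : ∀ M, Ch 2 (M + 2) →+ Ch 2 (M + 2)
  | 0 => AddMonoidHom.id _
  | (M + 1) => mk (M + 2) ((sg M).comp (pfst (M + 2)))
      (fun h => (sg M).comp (psnd (M + 2) (h - 1)))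

theorem sg_zero (x : Ch 2 2) : sg 0 x = x := rfl
theorem sg_fst (M : ℕ) (x : Ch 2 (M + 3)) : (sg (M + 1) x).1 = sg M x.1 := rfl
theorem sg_snd (M : ℕ) (x : Ch 2 (M + 3)) (h : ZMod 2) :
    (sg (M + 1) x).2 h = sg M (x.2 (h - 1)) := rfl

theorem sg_sg : ∀ M (x : Ch 2 (M + 2)), sg M (sg M x) = x
  | 0, _ => rfl
  | (M + 1), x => Ch.ext (by rw [sg_fst, sg_fst, sg_sg M])
      (fun h => by
        rw [sg_snd, sg_snd, sg_sg M]
        have : h - 1 - 1 = h := by revert h; decide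
        rw [this])

theorem sg_bd : ∀ M (x : Ch 2 (M + 2)), sg M (bd (M + 2) x) = bd (M + 2) (sg M x)
  | 0, _ => rfl
  | (M + 1), x => Ch.ext (by
        rw [sg_fst, bd_fst, bd_fst, map_add, sg_bd M, sg_fst, map_sum]
        congr 1
        rw [← Equiv.sum_comp (Equiv.subRight (1 : ZMod 2)) (fun h => sg M (x.2 h))]
        rfl)
      (fun h => by rw [sg_snd, bd_snd, bd_snd, sg_snd, map_neg, sg_bd M])

/-- the effect of the involution on a label -/
def fl (u : ZMod 2 × ℕ) : ZMod 2 × ℕ := (if u.2 < 2 then u.1 else u.1 + 1, u.2)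

theorem sg_emp : ∀ M, sg M (emp (M + 2) : Ch 2 (M + 2)) = emp (M + 2)
  | 0 => rfl
  | (M + 1) => Ch.ext (by rw [sg_fst, emp_fst, sg_emp M])
      (fun h => by rw [sg_snd, emp_snd, emp_snd, map_zero])

theorem sg_ins (h0 : ZMod 2) (j : ℕ) : ∀ M (x : Ch 2 (M + 2)), j < M + 2 →
    sg M (ins h0 j (M + 2) x) = ins (if j < 2 then h0 else h0 + 1) j (M + 2) (sg M x)
  | 0, x, hj => by rw [if_pos hj]; rfl
  | (M + 1), x, hj => by
    by_cases hjM : j = M + 2
    · subst hjM
      rw [if_neg (by omega)]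
      refine Ch.ext ?_ (fun h => ?_)
      · rw [sg_fst, ins_fst_eq, ins_fst_eq, map_zero]
      · rw [sg_snd, ins_snd_eq, ins_snd_eq, sg_fst]
        by_cases h2 : h = h0 + 1
        · rw [if_pos h2, if_pos (by rw [h2]; ring)]
        · rw [if_neg h2, if_neg (by intro h3; apply h2; rw [← h3]; ring), map_zero]
    · have hj' : j < M + 2 := by omega
      refine Ch.ext ?_ (fun h => ?_)
      · rw [sg_fst, ins_fst_ne h0 hjM, ins_fst_ne _ hjM, sg_fst, sg_ins h0 j M _ hj']
      · rw [sg_snd, ins_snd_ne h0 hjM, ins_snd_ne _ hjM, sg_snd, map_neg, sg_ins h0 j M _ hj']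

theorem sg_tup (M : ℕ) (σ : List (ZMod 2 × ℕ)) (h : ∀ u ∈ σ, u.2 < M + 2) :
    sg M (tup (M + 2) σ) = tup (M + 2) (σ.map fl) := by
  induction σ with
  | nil => exact sg_emp M
  | cons u σ ih =>
    rw [tup_cons, List.map_cons, tup_cons, sg_ins u.1 u.2 M _ (h u (by simp)),
      ih (fun v hv => h v (by simp [hv]))]
    rfl

/-- the relations of the Smith sequence of chains -/
def Rel (M : ℕ) (z : ℕ → Ch 2 (M + 2)) (a R : ℕ) (B : Ch 2 (M + 2)) : Prop :=
  bd (M + 2) (z 0) = (if a = 0 then B else 0) ∧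
  ∀ k < R, bd (M + 2) (z (k + 1)) = sg M (z k) + z k + (if a = k + 1 then B else 0)

theorem sum_two {A : Type*} [AddCommGroup A] (f : ZMod 2 → A) : ∑ h : ZMod 2, f h = f 0 + f 1 := by
  show ∑ h : Fin 2, f h = f 0 + f 1
  rw [Fin.sum_univ_two]; rfl

/-- elimination of one odd function -/
theorem elim_step (M : ℕ) (z : ℕ → Ch 2 (M + 3)) (a R : ℕ) (B : Ch 2 (M + 3))
    (hB : ∀ h, B.2 h = 0) (hsB : sg M B.1 = B.1) (hr : Rel (M + 1) z a R B) :
    ∃ y : ℕ → Ch 2 (M + 2), Rel M y (a + 1) R B.1 := by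
  obtain ⟨h0, h1⟩ := hr
  have dbl : ∀ x : Ch 2 (M + 2), x + x = 0 := add_self_Ch _
  -- components of the relations
  have hz : ∀ (c : Prop) [Decidable c] (h : ZMod 2),
      ((if c then B else 0 : Ch 2 (M + 3))).2 h = 0 := by
    intro c _ h
    split_ifs
    · exact hB h
    · rfl
  have hf : ∀ (c : Prop) [Decidable c],
      ((if c then B else 0 : Ch 2 (M + 3))).1 = if c then B.1 else 0 := by
    intro c _
    split_ifs <;> rfl
  have hm1 : ((0 : ZMod 2) - 1) = 1 := by decide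
  have e1 : ∀ k, (bd (M + 3) (z k)).1 = bd (M + 2) (z k).1 + ((z k).2 0 + (z k).2 1) := by
    intro k
    rw [bd_fst, sum_two]
  have e2 : ∀ k, bd (M + 2) (z k).1 = (bd (M + 3) (z k)).1 + ((z k).2 0 + (z k).2 1) := by
    intro k
    rw [e1, add_assoc, dbl, add_zero]
  have e3 : ∀ k, bd (M + 2) ((z k).2 0) = (bd (M + 3) (z k)).2 0 := by
    intro k
    rw [bd_snd, neg_Ch]
  let y : ℕ → Ch 2 (M + 2) := fun k => Nat.casesOn k ((z 0).2 0)
    (fun k => (z (k + 1)).2 0 + sg M (z k).1)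
  have hy0 : y 0 = (z 0).2 0 := rfl
  have hys : ∀ k, y (k + 1) = (z (k + 1)).2 0 + sg M (z k).1 := fun _ => rfl
  refine ⟨y, ?_, ?_⟩
  · rw [hy0, e3, h0, hz, if_neg (Nat.succ_ne_zero a)]
  · intro k hk
    have e4 : bd (M + 2) ((z (k + 1)).2 0) = sg M ((z k).2 1) + (z k).2 0 := by
      rw [e3, h1 k hk, Ch.add_snd, Ch.add_snd, hz, add_zero, sg_snd, hm1]
    rw [hys, map_add, e4, ← sg_bd, e2]
    rcases k with _ | k
    · rw [h0, hf, map_add, map_add, hy0]
      have e5 : sg M (if a = 0 then B.1 else 0) = if a = 0 then B.1 else 0 := by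
        split_ifs
        · exact hsB
        · rw [map_zero]
      rw [e5]
      have e6 : (if a + 1 = 0 + 1 then B.1 else 0) = if a = 0 then B.1 else (0 : Ch 2 (M + 2)) := by
        by_cases ha : a = 0
        · rw [if_pos ha, if_pos (by omega)]
        · rw [if_neg ha, if_neg (by omega)]
      rw [e6]
      calc sg M ((z 0).2 1) + (z 0).2 0 +
            ((if a = 0 then B.1 else 0) + (sg M ((z 0).2 0) + sg M ((z 0).2 1)))
          = sg M ((z 0).2 0) + (z 0).2 0 + (if a = 0 then B.1 else 0) +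
            (sg M ((z 0).2 1) + sg M ((z 0).2 1)) := by abel
        _ = _ := by rw [dbl, add_zero]
    · rw [h1 k (by omega), Ch.add_fst, Ch.add_fst, hf, map_add, map_add, map_add, map_add, hys]
      have e5 : sg M (if a = k + 1 then B.1 else 0) = if a = k + 1 then B.1 else 0 := by
        split_ifs
        · exact hsB
        · rw [map_zero]
      rw [e5, sg_fst, sg_sg, map_add, sg_sg]
      have e6 : (if a + 1 = k + 1 + 1 then B.1 else 0) =
          if a = k + 1 then B.1 else (0 : Ch 2 (M + 2)) := by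
        by_cases ha : a = k + 1
        · rw [if_pos ha, if_pos (by omega)]
        · rw [if_neg ha, if_neg (by omega)]
      rw [e6]
      calc sg M ((z (k + 1)).2 1) + (z (k + 1)).2 0 +
            ((z k).1 + sg M (z k).1 + (if a = k + 1 then B.1 else 0) +
              (sg M ((z (k + 1)).2 0) + sg M ((z (k + 1)).2 1)))
          = sg M ((z (k + 1)).2 0) + (z k).1 + ((z (k + 1)).2 0 + sg M (z k).1) +
            (if a = k + 1 then B.1 else 0) +
            (sg M ((z (k + 1)).2 1) + sg M ((z (k + 1)).2 1)) := by abel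
        _ = _ := by rw [dbl, add_zero]

/-- the chain contains only vertices of type `0` and `1` -/
def Good : ∀ M, Ch 2 (M + 2) → Prop
  | 0, _ => True
  | (M + 1), B => (∀ h, B.2 h = 0) ∧ Good M B.1

theorem Good.sg : ∀ {M} {B : Ch 2 (M + 2)}, Good M B → AV.sg M B = B
  | 0, _, _ => rfl
  | (M + 1), B, h => Ch.ext (by rw [sg_fst]; exact Good.sg h.2)
      (fun h' => by rw [sg_snd, h.1, h.1, map_zero])

theorem Good.zero : ∀ M, Good M 0
  | 0 => trivial
  | (M + 1) => ⟨fun _ => rfl, Good.zero M⟩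

theorem Good.add : ∀ {M} {B C : Ch 2 (M + 2)}, Good M B → Good M C → Good M (B + C)
  | 0, _, _, _, _ => trivial
  | (M + 1), B, C, hB, hC => ⟨fun h => by rw [Ch.add_snd, hB.1, hC.1, add_zero],
      Good.add hB.2 hC.2⟩

theorem Good.sum {M : ℕ} {ι : Type*} (s : Finset ι) (f : ι → Ch 2 (M + 2))
    (h : ∀ i ∈ s, Good M (f i)) : Good M (∑ i ∈ s, f i) := by
  classical
  induction s using Finset.induction_on with
  | empty => rw [Finset.sum_empty]; exact Good.zero M
  | insert a s ha ih =>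
    rw [Finset.sum_insert ha]
    exact Good.add (h a (by simp)) (ih fun i hi => h i (by simp [hi]))

/-- the coefficient of the edge joining the vertices `(0, 0)` and `(0, 1)` -/
noncomputable def edge : ∀ M, Ch 2 (M + 2) →+ ZMod 2
  | 0 => (e0 0).comp ((psnd 0 0).comp (psnd 1 0))
  | (M + 1) => (edge M).comp (pfst (M + 2))

theorem edge_zero (x : Ch 2 2) : edge 0 x = (x.2 0).2 0 := rfl
theorem edge_succ (M : ℕ) (x : Ch 2 (M + 3)) : edge (M + 1) x = edge M x.1 := rfl

theorem edge_bd (x : Ch 2 2) : edge 0 (bd 2 x) = 0 := by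
  rw [edge_zero, bd_snd, Ch.neg_snd, bd_snd, neg_neg]
  rfl

/-- after all eliminations the loop chain has edge coefficient zero -/
theorem descent2 : ∀ (M : ℕ) (z : ℕ → Ch 2 (M + 2)) (a R : ℕ) (B : Ch 2 (M + 2)),
    Good M B → Rel M z a R B → a + M ≤ R → edge M B = 0
  | 0, z, a, R, B, _, hr, ha => by
    rcases a with _ | k
    · have := hr.1
      rw [if_pos rfl] at this
      rw [← this]; exact edge_bd _
    · have h1 := hr.2 k (by omega)
      rw [if_pos rfl, sg_zero, add_self_Ch] at h1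
      have h2 := h1.trans (zero_add B)
      rw [← h2]; exact edge_bd _
  | (M + 1), z, a, R, B, hB, hr, ha => by
    obtain ⟨y, hy⟩ := elim_step M z a R B hB.1 (Good.sg hB.2) hr
    rw [edge_succ]
    exact descent2 M y (a + 1) R B.1 hB.2 hy (by omega)

theorem tup_low (M : ℕ) (σ : List (ZMod 2 × ℕ)) (h : ∀ u ∈ σ, u.2 ≠ M) :
    (tup (M + 1) σ).1 = tup M σ ∧ ∀ h, (tup (M + 1) σ).2 h = 0 := by
  induction σ with
  | nil => exact ⟨rfl, fun _ => rfl⟩
  | cons u σ ih =>
    obtain ⟨h1, h2⟩ := ih (fun v hv => h v (by simp [hv]))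
    have hu : u.2 ≠ M := h u (by simp)
    refine ⟨?_, fun h' => ?_⟩
    · rw [tup_cons, tup_cons, ins_fst_ne u.1 hu, h1]
    · rw [tup_cons, ins_snd_ne u.1 hu, h2, map_zero, neg_zero]

theorem tup_good (M : ℕ) (σ : List (ZMod 2 × ℕ)) (h : ∀ u ∈ σ, u.2 < 2) :
    Good M (tup (M + 2) σ) ∧ edge M (tup (M + 2) σ) = edge 0 (tup 2 σ) := by
  induction M with
  | zero => exact ⟨trivial, rfl⟩
  | succ M ih =>
    obtain ⟨h1, h2⟩ := tup_low (M + 2) σ (fun u hu => by have := h u hu; omega)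
    refine ⟨⟨h2, ?_⟩, ?_⟩
    · rw [h1]; exact ih.1
    · rw [edge_succ, h1]; exact ih.2

theorem edge_01 (α β : ZMod 2) : edge 0 (tup 2 [(α, 0), (β, 1)]) =
    if α = 0 ∧ β = 0 then 1 else 0 := by
  rw [edge_zero, tup_cons, tup_cons]
  show ((ins α 0 2 (ins β 1 2 (emp 2))).2 0).2 0 = _
  rw [ins_snd_ne α (by decide : (0 : ℕ) ≠ 1), Ch.neg_snd, ins_snd_eq]
  by_cases hα : (0 : ZMod 2) = α
  · rw [if_pos hα]
    have h1 := ins_snd_eq β 1 (emp 2) 0
    rw [h1]
    by_cases hβ : (0 : ZMod 2) = β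
    · rw [if_pos hβ, if_pos ⟨hα.symm, hβ.symm⟩]
      show -(1 : ZMod 2) = 1
      decide
    · rw [if_neg hβ, if_neg (fun h => hβ h.2.symm)]
      show -(0 : ZMod 2) = 0
      decide
  · rw [if_neg hα, if_neg (fun h => hα h.1.symm)]
    show -(0 : ZMod 2) = 0
    decide

theorem edge_10 (α β : ZMod 2) : edge 0 (tup 2 [(α, 1), (β, 0)]) =
    if α = 0 ∧ β = 0 then 1 else 0 := by
  rw [edge_zero, tup_cons, tup_cons]
  show ((ins α 1 2 (ins β 0 2 (emp 2))).2 0).2 0 = _
  rw [ins_snd_eq, ins_fst_ne β (by decide : (0 : ℕ) ≠ 1), emp_fst]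
  by_cases hα : (0 : ZMod 2) = α
  · rw [if_pos hα, ins_snd_eq]
    by_cases hβ : (0 : ZMod 2) = β
    · rw [if_pos hβ, if_pos ⟨hα.symm, hβ.symm⟩]
      rfl
    · rw [if_neg hβ, if_neg (fun h => hβ h.2.symm)]
      rfl
  · rw [if_neg hα, if_neg (fun h => hα h.1.symm)]
    rfl

theorem edge_00 (α β : ZMod 2) : edge 0 (tup 2 [(α, 0), (β, 0)]) = 0 := by
  rw [edge_zero, tup_cons, tup_cons]
  show ((ins α 0 2 (ins β 0 2 (emp 2))).2 0).2 0 = _
  rw [ins_snd_ne α (by decide : (0 : ℕ) ≠ 1), ins_snd_ne β (by decide : (0 : ℕ) ≠ 1), emp_snd,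
    map_zero, neg_zero, map_zero, neg_zero]
  rfl

theorem edge_11 (α β : ZMod 2) : edge 0 (tup 2 [(α, 1), (β, 1)]) = 0 := by
  rw [edge_zero, tup_cons, tup_cons]
  show ((ins α 1 2 (ins β 1 2 (emp 2))).2 0).2 0 = _
  rw [ins_snd_eq, ins_fst_eq]
  split_ifs <;> rfl

/-- indicator of the label `(0, 0)` -/
def ind (u : ZMod 2 × ℕ) : ZMod 2 := if u = (0, 0) then 1 else 0

/-- edge coefficient on the segment where the label `(1, 1)` does not occur -/
theorem edge_seg {u v : ZMod 2 × ℕ} (hu : u = (0, 0) ∨ u = (1, 0) ∨ u = (0, 1))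
    (hv : v = (0, 0) ∨ v = (1, 0) ∨ v = (0, 1)) (hc : Compat u v) :
    edge 0 (tup 2 [u, v]) = ind u + ind v := by
  unfold Compat at hc
  rcases hu with rfl | rfl | rfl <;> rcases hv with rfl | rfl | rfl
  · rw [edge_00]; decide
  · exact absurd (hc rfl) (by decide)
  · rw [edge_01]; decide
  · exact absurd (hc rfl) (by decide)
  · rw [edge_00]; decide
  · rw [edge_01]; decide
  · rw [edge_10]; decide
  · rw [edge_10]; decide
  · rw [edge_11]; decide

/-- edge coefficient where the label `(0, 1)` does not occur -/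
theorem edge_off {u v : ZMod 2 × ℕ} (hu : u.2 < 2) (hv : v.2 < 2) (hu' : u ≠ (0, 1))
    (hv' : v ≠ (0, 1)) : edge 0 (tup 2 [u, v]) = 0 := by
  obtain ⟨α, i⟩ := u
  obtain ⟨β, j⟩ := v
  simp only at hu hv
  interval_cases i <;> interval_cases j
  · exact edge_00 α β
  · rw [edge_01, if_neg]
    rintro ⟨-, rfl⟩
    exact hv' rfl
  · rw [edge_10, if_neg]
    rintro ⟨rfl, -⟩
    exact hu' rfl
  · exact edge_11 α β

end Pool.Agent.H71.AV
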