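import Pool.Agent.H71.AV.Alg2
import Pool.Agent.H73.Avr.Engine

/-!
# The discrete form of the loop argument
-/

namespace Pool.Agent.H71.AV

open FreeAbelianGroup Pool.Agent.H73.Avr

variable {X : Type}

/-- chains of the Smith sequence built with the cone operator over a closed chain -/
noncomputable def ech2 (g : X → X) (Hs : ℕ → X → X) (D : ℕ) (B : O X) : ℕ → O X
  | 0 => K Hs D B
  | (k + 1) => K Hs D (opc g 2 k (ech2 g Hs D B k))

/-- lists of length `k+2` contained in one of the small sets of level `k` -/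
def Sm2 (F : ℕ → Set (Set X)) (k : ℕ) (σ : List X) : Prop :=
  σ.length = k + 2 ∧ ∃ S ∈ F k, ∀ x ∈ σ, x ∈ S

theorem K_mem2 {g : X → X} {Hs : ℕ → X → X} {D : ℕ} {F : ℕ → Set (Set X)}
    (hF : ∀ k, ∀ S ∈ F k, ∀ s < 2, ∀ i < D, ∃ S' ∈ F (k + 1), ∀ x ∈ S,
      Hs i (g^[s] x) ∈ S' ∧ Hs (i + 1) (g^[s] x) ∈ S') (k : ℕ) {c : O X}
    (hc : c ∈ cl (X := X) (fun σ => σ.length = k + 2 ∧
        ∃ S ∈ F k, ∃ s < 2, ∀ y ∈ σ, ∃ x ∈ S, y = g^[s] x)) :
    K Hs D c ∈ cl (Sm2 F (k + 1)) := by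
  rw [K_apply]
  refine AddSubgroup.sum_mem _ fun i hi => map_mem_of_cl _ ?_ hc
  rintro σ ⟨hl, S, hS, s, hs, hx⟩
  rw [P_of]
  obtain ⟨S', hS', hin⟩ := hF k S hS s hs i (Finset.mem_range.1 hi)
  have h3 := pl_mem (Hs i) (Hs (i + 1)) σ
  have h4 : cl (X := X) (fun τ => τ.length = σ.length + 1 ∧
      ∀ y ∈ τ, ∃ x ∈ σ, y = Hs i x ∨ y = Hs (i + 1) x) ≤ cl (Sm2 F (k + 1)) := by
    unfold cl
    rw [AddSubgroup.closure_le]
    rintro _ ⟨τ, ⟨h5, h6⟩, rfl⟩
    refine AddSubgroup.subset_closure ⟨τ, ⟨by rw [h5, hl], S', hS', ?_⟩, rfl⟩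
    intro y hy
    obtain ⟨x, hxσ, hyx⟩ := h6 y hy
    obtain ⟨z, hz, rfl⟩ := hx x hxσ
    rcases hyx with rfl | rfl
    · exact (hin z hz).1
    · exact (hin z hz).2
  exact h4 h3

theorem opc_mem2 {g : X → X} {F : ℕ → Set (Set X)} (k j : ℕ) {c : O X}
    (hc : c ∈ cl (Sm2 F k)) : opc g 2 j c ∈ cl (X := X) (fun σ => σ.length = k + 2 ∧
        ∃ S ∈ F k, ∃ s < 2, ∀ y ∈ σ, ∃ x ∈ S, y = g^[s] x) := by
  refine opc_mem (by norm_num) (fun s hs y hy => ?_) hc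
  have h2 : ∀ y : O X, (mp g)^[s] y = (mp g^[s]) y := by
    intro y
    induction y using FreeAbelianGroup.induction_on with
    | zero => rw [iterate_map_zero', map_zero]
    | of σ => rw [mp_iter_of, mp_of]
    | neg σ h => rw [iterate_map_neg', h, map_neg]
    | add a b ha hb => rw [iterate_map_add', ha, hb, map_add]
  rw [h2]
  refine map_mem_of_cl _ ?_ hy
  rintro σ ⟨hl, S, hS, hx⟩
  rw [mp_of]
  refine of_mem_cl ⟨by simpa using hl, S, hS, s, hs, ?_⟩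
  intro y hy
  obtain ⟨x, hx1, rfl⟩ := List.mem_map.1 hy
  exact ⟨x, hx x hx1, rfl⟩

theorem cl_mono {p p' : List X → Prop} (h : ∀ σ, p σ → p' σ) : cl (X := X) p ≤ cl p' := by
  unfold cl
  rw [AddSubgroup.closure_le]
  rintro _ ⟨τ, h5, rfl⟩
  exact AddSubgroup.subset_closure ⟨τ, h τ h5, rfl⟩

theorem ech2_mem {g : X → X} {Hs : ℕ → X → X} {D : ℕ} {F : ℕ → Set (Set X)}
    (hF : ∀ k, ∀ S ∈ F k, ∀ s < 2, ∀ i < D, ∃ S' ∈ F (k + 1), ∀ x ∈ S,
      Hs i (g^[s] x) ∈ S' ∧ Hs (i + 1) (g^[s] x) ∈ S') {B : O X} (hB : B ∈ cl (Sm2 F 0))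
    (k : ℕ) : ech2 g Hs D B k ∈ cl (Sm2 F (k + 1)) := by
  induction k with
  | zero =>
    refine K_mem2 hF 0 ?_
    refine cl_mono ?_ hB
    rintro σ ⟨hl, S, hS, hx⟩
    exact ⟨hl, S, hS, 0, by norm_num, fun y hy => ⟨y, hx y hy, rfl⟩⟩
  | succ k ih => exact K_mem2 hF (k + 1) (opc_mem2 (k + 1) k ih)

theorem ech2_length {g : X → X} {Hs : ℕ → X → X} {D : ℕ} {B : O X}
    (hB : B ∈ cl (X := X) (fun σ => σ.length = 2)) (k : ℕ) :
    ech2 g Hs D B k ∈ cl (X := X) (fun σ => σ.length = k + 3) := by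
  have h := ech2_mem (g := g) (Hs := Hs) (D := D) (F := fun _ => {Set.univ})
    (fun k S _ s _ i _ => ⟨Set.univ, rfl, fun x _ => ⟨trivial, trivial⟩⟩)
    (cl_mono (fun σ hσ => ⟨hσ, Set.univ, rfl, fun _ _ => trivial⟩) hB) k
  exact cl_mono (fun σ hσ => hσ.1) h

theorem mp_const_mem {f : X → X} {x1 : X} (hf : ∀ x, f x = x1) {k : ℕ} {c : O X}
    (hc : c ∈ cl (X := X) (fun σ => σ.length = k + 2)) : mp f c ∈ cl (X := X) Dg := by
  refine map_mem_of_cl (mp f) (fun σ hσ => ?_) hc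
  rw [mp_of]
  match σ, hσ with
  | a :: b :: r, _ =>
    rw [List.map_cons, List.map_cons, hf, hf]
    exact of_mem_cl (Dg.head _ _)

/-- the boundary relations modulo degenerate lists -/
theorem dO_ech2 {g : X → X} (hg : g^[2] = id) {Hs : ℕ → X → X} {D : ℕ}
    {x1 : X} (h0 : ∀ x, Hs 0 x = x) (hD : ∀ x, Hs D x = x1) {B : O X} (hB : mp g B = B)
    (hdB : dO B = 0) (hBl : B ∈ cl (X := X) (fun σ => σ.length = 2)) :
    dO (ech2 g Hs D B 0) + B ∈ cl (X := X) Dg ∧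
    ∀ k, dO (ech2 g Hs D B (k + 1)) + opc g 2 k (ech2 g Hs D B k) ∈ cl (X := X) Dg := by
  have hmp0 : ∀ y : O X, mp (Hs 0) y = y := by
    intro y
    have : Hs 0 = id := funext h0
    rw [this]
    induction y using FreeAbelianGroup.induction_on with
    | zero => rw [map_zero]
    | of σ => rw [mp_of]; simp
    | neg σ h => rw [map_neg, h]
    | add a b ha hb => rw [map_add, ha, hb]
  have step : ∀ c : O X, dO c ∈ cl (X := X) Dg → mp (Hs D) c ∈ cl (X := X) Dg →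
      dO (K Hs D c) + c ∈ cl (X := X) Dg := by
    intro c h1 h2
    have h3 := dO_K Hs D c
    rw [hmp0] at h3
    have h4 : dO (K Hs D c) + c = mp (Hs D) c - K Hs D (dO c) := by
      rw [eq_sub_iff_add_eq]
      calc dO (K Hs D c) + c + K Hs D (dO c) = (dO (K Hs D c) + K Hs D (dO c)) + c := by abel
        _ = mp (Hs D) c := by rw [h3]; abel
    rw [h4]
    exact AddSubgroup.sub_mem _ h2 (K_mem_Dg Hs D h1)
  have hlen : ∀ k, mp (Hs D) (opc g 2 k (ech2 g Hs D B k)) ∈ cl (X := X) Dg := by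
    intro k
    refine mp_const_mem (k := k + 1) hD ?_
    exact opc_mem (by norm_num) (fun s _ y hy => iter_mem_length g s hy) (ech2_length hBl k)
  have hbase : dO (ech2 g Hs D B 0) + B ∈ cl (X := X) Dg := by
    show dO (K Hs D B) + B ∈ _
    refine step B ?_ (mp_const_mem (k := 0) hD hBl)
    rw [hdB]; exact AddSubgroup.zero_mem _
  refine ⟨hbase, fun k => ?_⟩
  induction k with
  | zero =>
    refine step _ ?_ (hlen 0)
    rw [dO_opc]
    set z := dO (ech2 g Hs D B 0) + B with hz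
    have h1 : dO (ech2 g Hs D B 0) = z - B := by rw [hz]; abel
    have h2 : opc g 2 0 B = 0 := by
      unfold opc
      rw [if_pos (by decide), hB, sub_self]
    rw [h1, opc_sub, h2, sub_zero]
    exact opc_mem (by norm_num) (fun s _ y hy => iter_mem_Dg g s hy) hbase
  | succ k ih =>
    refine step _ ?_ (hlen (k + 1))
    rw [dO_opc]
    set z := dO (ech2 g Hs D B (k + 1)) + opc g 2 k (ech2 g Hs D B k) with hz
    have h1 : dO (ech2 g Hs D B (k + 1)) = z - opc g 2 k (ech2 g Hs D B k) := by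
      rw [hz]; abel
    rw [h1, opc_sub, opc_opc hg, sub_zero]
    exact opc_mem (by norm_num) (fun s _ y hy => iter_mem_Dg g s hy) ih

theorem Ph_mp2 (ℓ : X → ZMod 2 × ℕ) (M : ℕ) {g : X → X}
    (hℓ : ∀ x, ℓ (g x) = fl (ℓ x)) (hM : ∀ x, (ℓ x).2 < M + 2) (y : O X) :
    Ph ℓ (M + 2) (mp g y) = sg M (Ph ℓ (M + 2) y) := by
  have : (Ph ℓ (M + 2)).comp (mp g) = (sg M).comp (Ph ℓ (M + 2)) := by
    apply FreeAbelianGroup.lift_ext
    intro σ
    show Ph ℓ (M + 2) (mp g (of σ)) = sg M (Ph ℓ (M + 2) (of σ))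
    rw [mp_of, Ph_of, Ph_of, sg_tup, List.map_map, List.map_map]
    · congr 1
      apply List.map_congr_left
      intro x _
      exact hℓ x
    · intro u hu
      obtain ⟨x, _, rfl⟩ := List.mem_map.1 hu
      exact hM x
  exact DFunLike.congr_fun this y

theorem Ph_opc2 (ℓ : X → ZMod 2 × ℕ) (M : ℕ) {g : X → X}
    (hℓ : ∀ x, ℓ (g x) = fl (ℓ x)) (hM : ∀ x, (ℓ x).2 < M + 2) (k : ℕ) (y : O X) :
    Ph ℓ (M + 2) (opc g 2 k y) = sg M (Ph ℓ (M + 2) y) + Ph ℓ (M + 2) y := by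
  unfold opc
  split_ifs
  · rw [map_sub, Ph_mp2 ℓ M hℓ hM, sub_Ch]
  · unfold Nm
    rw [Finset.sum_range_succ, Finset.sum_range_one, map_add]
    show Ph ℓ (M + 2) y + Ph ℓ (M + 2) (mp g y) = _
    rw [Ph_mp2 ℓ M hℓ hM]
    exact add_comm (Ph ℓ (M + 2) y) (sg M (Ph ℓ (M + 2) y))

/-- discrete form of the theorem -/
theorem engine_disc2 (M : ℕ) {g : X → X} (hg : g^[2] = id) (ℓ : X → ZMod 2 × ℕ)
    (hℓ : ∀ x, ℓ (g x) = fl (ℓ x)) (hM : ∀ x, (ℓ x).2 < M + 2)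
    (Hs : ℕ → X → X) (D : ℕ) (x1 : X) (h0 : ∀ x, Hs 0 x = x) (hD : ∀ x, Hs D x = x1)
    (c : Fin 4 → ℕ → X) (hfix : ∀ i j, g (c i j) = c i j) (hglue : ∀ i, c i D = c (i + 1) 0)
    (F : ℕ → Set (Set X)) (hF0 : ∀ i, ∀ j < D, ∃ S ∈ F 0, c i j ∈ S ∧ c i (j + 1) ∈ S)
    (hF : ∀ k, ∀ S ∈ F k, ∀ s < 2, ∀ i < D, ∃ S' ∈ F (k + 1), ∀ x ∈ S,
      Hs i (g^[s] x) ∈ S' ∧ Hs (i + 1) (g^[s] x) ∈ S')
    (hcomp : ∀ k ≤ M + 1, ∀ S ∈ F k, ∀ x ∈ S, ∀ y ∈ S, Compat (ℓ x) (ℓ y))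
    (hl0 : ∀ j ≤ D, ℓ (c 0 j) = (0, 0) ∨ ℓ (c 0 j) = (1, 0) ∨ ℓ (c 0 j) = (0, 1))
    (hs : ℓ (c 0 0) = (0, 0)) (he : ℓ (c 0 D) = (1, 0))
    (hl : ∀ i, i ≠ 0 → ∀ j ≤ D, (ℓ (c i j)).2 < 2 ∧ ℓ (c i j) ≠ (0, 1)) : False := by
  set B : O X := ∑ i : Fin 4, ∑ j ∈ Finset.range D, of [c i j, c i (j + 1)] with hBdef
  have hB : mp g B = B := by
    rw [hBdef, map_sum]
    refine Finset.sum_congr rfl fun i _ => ?_
    rw [map_sum]
    refine Finset.sum_congr rfl fun j _ => ?_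
    rw [mp_of, List.map_cons, List.map_cons, List.map_nil, hfix, hfix]
  have hdB : dO B = 0 := by
    rw [hBdef, map_sum]
    have h1 : ∀ i : Fin 4, dO (∑ j ∈ Finset.range D, of [c i j, c i (j + 1)]) =
        of [c (i + 1) 0] - of [c i 0] := by
      intro i
      rw [map_sum, ← hglue i]
      have h2 : ∀ j ∈ Finset.range D, dO (of [c i j, c i (j + 1)]) =
          of [c i (j + 1)] - of [c i j] := by
        intro j _
        rw [dO_of]
        show of [c i (j + 1)] - cns (c i j) (of [] - cns (c i (j + 1)) 0) = _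
        rw [map_zero, sub_zero, cns_of]
      rw [Finset.sum_congr rfl h2]
      exact Finset.sum_range_sub (fun j => (of [c i j] : O X)) D
    rw [Finset.sum_congr rfl fun i _ => h1 i, Finset.sum_sub_distrib, sub_eq_zero]
    exact Equiv.sum_comp (Equiv.addRight (1 : Fin 4)) (fun i => (of [c i 0] : O X))
  have hBs : B ∈ cl (Sm2 F 0) := by
    refine AddSubgroup.sum_mem _ fun i _ => AddSubgroup.sum_mem _ fun j hj => of_mem_cl ?_
    obtain ⟨S, hS, h1, h2⟩ := hF0 i j (Finset.mem_range.1 hj)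
    refine ⟨rfl, S, hS, ?_⟩
    intro x hx
    rw [List.mem_cons, List.mem_singleton] at hx
    rcases hx with rfl | rfl
    · exact h1
    · exact h2
  have hBl : B ∈ cl (X := X) (fun σ => σ.length = 2) := cl_mono (fun σ hσ => hσ.1) hBs
  have hpair : ∀ k ≤ M + 1, ∀ σ, Sm2 F k σ → (σ.map ℓ).Pairwise Compat := by
    rintro k hk σ ⟨_, S, hS, hx⟩
    rw [List.pairwise_map]
    exact List.pairwise_of_forall_mem_list fun a ha b hb => hcomp k hk S hS a (hx a ha) b (hx b hb)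
  have hmem2 : ∀ k ≤ M, ech2 g Hs D B k ∈
      cl (X := X) (fun σ => (σ.map ℓ).Pairwise Compat) := by
    intro k hk
    exact cl_mono (hpair (k + 1) (by omega)) (ech2_mem hF hBs k)
  obtain ⟨hr0, hr1⟩ := dO_ech2 hg h0 hD hB hdB hBl
  have hlow : ∀ i : Fin 4, ∀ j ≤ D, (ℓ (c i j)).2 < 2 := by
    intro i j hj
    by_cases hi : i = 0
    · subst hi
      rcases hl0 j hj with h | h | h <;> rw [h] <;> decide
    · exact (hl i hi j hj).1
  have hPB : ∀ N, Ph ℓ N B = ∑ i : Fin 4, ∑ j ∈ Finset.range D,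
      tup N [ℓ (c i j), ℓ (c i (j + 1))] := by
    intro N
    rw [hBdef, map_sum]
    refine Finset.sum_congr rfl fun i _ => ?_
    rw [map_sum]
    refine Finset.sum_congr rfl fun j _ => ?_
    rw [Ph_of]; rfl
  have htup : ∀ i : Fin 4, ∀ j ∈ Finset.range D,
      Good M (tup (M + 2) [ℓ (c i j), ℓ (c i (j + 1))]) ∧
      edge M (tup (M + 2) [ℓ (c i j), ℓ (c i (j + 1))]) =
        edge 0 (tup 2 [ℓ (c i j), ℓ (c i (j + 1))]) := by
    intro i j hj
    rw [Finset.mem_range] at hj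
    apply tup_good
    intro u hu
    rw [List.mem_cons, List.mem_singleton] at hu
    rcases hu with rfl | rfl
    · exact hlow i j hj.le
    · exact hlow i (j + 1) hj
  have hgood : Good M (Ph ℓ (M + 2) B) := by
    rw [hPB]
    exact Good.sum _ _ fun i _ => Good.sum _ _ fun j hj => (htup i j hj).1
  have hrel : Rel M (fun k => Ph ℓ (M + 2) (ech2 g Hs D B k)) 0 M (Ph ℓ (M + 2) B) := by
    constructor
    · have h1 := Ph_Dg ℓ (M + 2) hr0
      rw [map_add, Ph_dO ℓ (M + 2) hM (hmem2 0 (Nat.zero_le _))] at h1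
      rw [if_pos rfl]
      show bd (M + 2) (Ph ℓ (M + 2) (ech2 g Hs D B 0)) = _
      rw [eq_neg_of_add_eq_zero_left h1, neg_Ch]
    · intro k hk
      have h1 := Ph_Dg ℓ (M + 2) (hr1 k)
      rw [map_add, Ph_dO ℓ (M + 2) hM (hmem2 (k + 1) (by omega)), Ph_opc2 ℓ M hℓ hM] at h1
      rw [if_neg (by omega)]
      show bd (M + 2) (Ph ℓ (M + 2) (ech2 g Hs D B (k + 1))) = _
      rw [eq_neg_of_add_eq_zero_left h1, neg_Ch, add_zero]
  have hzero := descent2 M _ 0 M _ hgood hrel (by omega)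
  -- the edge coefficient is one
  have hone : edge M (Ph ℓ (M + 2) B) = 1 := by
    rw [hPB, map_sum]
    have h1 : ∀ i : Fin 4, edge M (∑ j ∈ Finset.range D,
        tup (M + 2) [ℓ (c i j), ℓ (c i (j + 1))]) = if i = 0 then 1 else 0 := by
      intro i
      rw [map_sum, Finset.sum_congr rfl fun j hj => (htup i j hj).2]
      by_cases hi : i = 0
      · subst hi
        rw [if_pos rfl]
        have h2 : ∀ j ∈ Finset.range D, edge 0 (tup 2 [ℓ (c 0 j), ℓ (c 0 (j + 1))]) =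
            ind (ℓ (c 0 (j + 1))) - ind (ℓ (c 0 j)) := by
          intro j hj
          rw [Finset.mem_range] at hj
          obtain ⟨S, hS, ha, hb⟩ := hF0 0 j hj
          rw [edge_seg (hl0 j hj.le) (hl0 (j + 1) hj)
            (hcomp 0 (Nat.zero_le _) S hS _ ha _ hb), add_comm, sub_eq_add_neg]
          congr 1
          exact (ZMod.neg_eq_self_mod_two _).symm
        rw [Finset.sum_congr rfl h2, Finset.sum_range_sub (fun j => ind (ℓ (c 0 j))) D, hs, he]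
        decide
      · rw [if_neg hi]
        refine Finset.sum_eq_zero fun j hj => ?_
        rw [Finset.mem_range] at hj
        exact edge_off (hl i hi j hj.le).1 (hl i hi (j + 1) hj).1 (hl i hi j hj.le).2
          (hl i hi (j + 1) hj).2
    rw [Finset.sum_congr rfl fun i _ => h1 i]
    simp
  rw [hone] at hzero
  exact one_ne_zero hzero

end Pool.Agent.H71.AV
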