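import Pool.Agent.H71.AV.Refl

/-!
# Symmetric measures balanced in the coordinate `0`
-/

namespace Pool.Agent.H71.AV

open Pool.Agent.H73.Avr

/-- distinct points of the support have negative inner product -/
theorem inner_neg_of_mem {n : ℕ} {r : ℝ} (hr : Real.pi / 2 < r) (μ : AVR (geo n) r) {x y : Sph n}
    (hx : x ∈ μ.w.support) (hy : y ∈ μ.w.support) (hxy : x ≠ y) : inner ℝ x.1 y.1 < 0 := by
  have h1 : Real.pi / 2 < InnerProductGeometry.angle x.1 y.1 :=
    lt_of_lt_of_le hr (μ.spread x hx y hy hxy)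
  have h2 : Real.cos (InnerProductGeometry.angle x.1 y.1) < 0 := by
    apply Real.cos_neg_of_pi_div_two_lt_of_lt h1
    have := InnerProductGeometry.angle_le_pi x.1 y.1
    linarith [Real.pi_pos]
  have h3 := InnerProductGeometry.cos_angle_mul_norm_mul_norm x.1 y.1
  rw [mem_sphere_zero_iff_norm.1 x.2, mem_sphere_zero_iff_norm.1 y.2, one_mul, mul_one] at h3
  linarith

theorem inner_add_refl {n : ℕ} (x y : Sph n) :
    inner ℝ x.1 (refl n y).1 + inner ℝ x.1 y.1 = 2 * (x.1 0 * y.1 0) := by
  rw [← inner_add_right, PiLp.inner_apply, Finset.sum_eq_single 0]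
  · rw [PiLp.add_apply, refl_apply, if_pos rfl]
    simp
    ring
  · intro i _ hi
    rw [PiLp.add_apply, refl_apply, if_neg hi]
    simp
  · intro h
    exact absurd (Finset.mem_univ _) h

theorem inner_self_one {n : ℕ} (x : Sph n) : inner ℝ x.1 x.1 = (1 : ℝ) := by
  rw [real_inner_self_eq_norm_sq, mem_sphere_zero_iff_norm.1 x.2, one_pow]

/-- a point of the support is a pole or has small first coordinate -/
theorem pole_or {n : ℕ} {r : ℝ} (hr : Real.pi / 2 < r) (μ : AVR (geo n) r)
    (hinv : ∀ x, μ.w (refl n x) = μ.w x) {x : Sph n} (hx : x ∈ μ.w.support) :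
    (refl n x = x ∧ (x.1 0 = 1 ∨ x.1 0 = -1)) ∨ 2 * x.1 0 ^ 2 < 1 := by
  have h1 := inner_add_refl x x
  rw [inner_self_one] at h1
  by_cases h : refl n x = x
  · left
    rw [h, inner_self_one] at h1
    refine ⟨h, ?_⟩
    have h2 : (x.1 0 - 1) * (x.1 0 + 1) = 0 := by linarith
    rcases mul_eq_zero.1 h2 with h3 | h3
    · left; linarith
    · right; linarith
  · right
    have hx' : refl n x ∈ μ.w.support := by
      rw [Finsupp.mem_support_iff] at hx ⊢
      rw [hinv]
      exact hx
    have h2 := inner_neg_of_mem hr μ hx hx' (Ne.symm h)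
    have h3 : x.1 0 ^ 2 = x.1 0 * x.1 0 := sq _
    linarith

/-- the inner product with a fixed point of the reflection -/
theorem inner_fixed {n : ℕ} {p : Sph n} (hp : refl n p = p) (x : Sph n) :
    inner ℝ p.1 x.1 = p.1 0 * x.1 0 := by
  have h1 := inner_add_refl p x
  have h2 : inner ℝ p.1 (refl n x).1 = inner ℝ p.1 x.1 := by
    have h3 : inner ℝ (refl n p).1 (refl n x).1 = inner ℝ p.1 x.1 := inner_lrefl _ _
    rw [hp] at h3
    exact h3
  rw [h2] at h1
  linarith

theorem ri_le {n : ℕ} {r : ℝ} (μ : AVR (geo n) r) {f g : Sph n → ℝ}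
    (h : ∀ x ∈ μ.w.support, f x ≤ g x) : ri f μ.w ≤ ri g μ.w := by
  unfold ri Finsupp.sum
  exact Finset.sum_le_sum fun x hx => mul_le_mul_of_nonneg_left (h x hx) (μ.nonneg x)

theorem ri_affine {n : ℕ} {r : ℝ} (μ : AVR (geo n) r) (f : Sph n → ℝ) (a b : ℝ) :
    ri (fun x => a * f x + b) μ.w = a * ri f μ.w + b := by
  have h := μ.total
  unfold ri
  unfold Finsupp.sum at h ⊢
  calc ∑ x ∈ μ.w.support, μ.w x * (a * f x + b)
      = a * ∑ x ∈ μ.w.support, μ.w x * f x + b * ∑ x ∈ μ.w.support, μ.w x := by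
        rw [Finset.mul_sum, Finset.mul_sum, ← Finset.sum_add_distrib]
        refine Finset.sum_congr rfl fun x _ => ?_
        ring
    _ = a * ∑ x ∈ μ.w.support, μ.w x * f x + b := by rw [h, mul_one]

/-- A measure invariant under the reflection and balanced in the coordinate `0` has second moment
different from `3 / 4` in this coordinate. -/
theorem key {n : ℕ} {r : ℝ} (hr : Real.pi / 2 < r) (μ : AVR (geo n) r)
    (hinv : ∀ x, μ.w (refl n x) = μ.w x) (hT : ri (fun x => x.1 0) μ.w = 0) :
    ri (fun x => x.1 0 ^ 2) μ.w ≠ 3 / 4 := by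
  have hpo := fun (x : Sph n) (hx : x ∈ μ.w.support) => pole_or hr μ hinv hx
  by_cases hN : ∃ p ∈ μ.w.support, refl n p = p ∧ p.1 0 = 1
  · by_cases hS : ∃ q ∈ μ.w.support, refl n q = q ∧ q.1 0 = -1
    · obtain ⟨p, hp, hp1, hp2⟩ := hN
      obtain ⟨q, hq, hq1, hq2⟩ := hS
      have h1 : ∀ x ∈ μ.w.support, (fun _ => (1 : ℝ)) x ≤ x.1 0 ^ 2 := by
        intro x hx
        show (1 : ℝ) ≤ x.1 0 ^ 2
        by_cases hxp : x = p
        · rw [hxp, hp2]; norm_num
        · by_cases hxq : x = q
          · rw [hxq, hq2]; norm_num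
          · exfalso
            have h2 := inner_neg_of_mem hr μ hp hx (Ne.symm hxp)
            have h3 := inner_neg_of_mem hr μ hq hx (Ne.symm hxq)
            rw [inner_fixed hp1, hp2] at h2
            rw [inner_fixed hq1, hq2] at h3
            linarith
      have h4 := ri_le μ (f := fun _ => (1 : ℝ)) (g := fun x => x.1 0 ^ 2) h1
      have h5 := ri_affine μ (fun x => x.1 0) 0 1
      have h6 : ri (fun _ => (1 : ℝ)) μ.w = 1 := by
        have h7 : (fun x : Sph n => (0 : ℝ) * x.1 0 + 1) = fun _ => 1 := by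
          funext x; ring
        rw [h7, zero_mul, zero_add] at h5
        exact h5
      intro h8
      rw [h6, h8] at h4
      norm_num at h4
    · have h1 : ∀ x ∈ μ.w.support, x.1 0 ^ 2 ≤ (28 / 100) * x.1 0 + 72 / 100 := by
        intro x hx
        rcases hpo x hx with ⟨h2, h3 | h3⟩ | h2
        · rw [h3]; norm_num
        · exact absurd ⟨x, hx, h2, h3⟩ hS
        · have h3 : |x.1 0| < 72 / 100 := by
            apply abs_lt_of_sq_lt_sq
            · nlinarith
            · norm_num
          have h4 := abs_lt.1 h3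
          nlinarith
      have h4 := ri_le μ (f := fun x => x.1 0 ^ 2) (g := fun x => (28 / 100) * x.1 0 + 72 / 100) h1
      rw [ri_affine μ (fun x => x.1 0), hT] at h4
      intro h5
      rw [h5] at h4
      norm_num at h4
  · have h1 : ∀ x ∈ μ.w.support, x.1 0 ^ 2 ≤ (-28 / 100) * x.1 0 + 72 / 100 := by
      intro x hx
      rcases hpo x hx with ⟨h2, h3 | h3⟩ | h2
      · exact absurd ⟨x, hx, h2, h3⟩ hN
      · rw [h3]; norm_num
      · have h3 : |x.1 0| < 72 / 100 := by
          apply abs_lt_of_sq_lt_sq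
          · nlinarith
          · norm_num
        have h4 := abs_lt.1 h3
        nlinarith
    have h4 := ri_le μ (f := fun x => x.1 0 ^ 2) (g := fun x => (-28 / 100) * x.1 0 + 72 / 100) h1
    rw [ri_affine μ (fun x => x.1 0), hT] at h4
    intro h5
    rw [h5] at h4
    norm_num at h4

end Pool.Agent.H71.AV
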