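import Pool.Agent.H71.AV.Top2

/-!
# A Smith type theorem for an involution and a loop of fixed points

On a contractible space with an involution there is no system of odd functions `F j` and
invariant functions `T`, `h` without common zero such that `(T, h)` has odd winding number along
a loop of fixed points.
-/

namespace Pool.Agent.H71.AV

open Pool.Agent.H73.Avr

/-- sign of a real number, as an element of `ℤ/2` -/
noncomputable def sgn (a : ℝ) : ZMod 2 := if 0 < a then 0 else 1

theorem sgn_neg {a : ℝ} (ha : a ≠ 0) : sgn (-a) = sgn a + 1 := by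
  unfold sgn
  rcases lt_or_gt_of_ne ha with h | h
  · rw [if_pos (by linarith), if_neg (by linarith)]; decide
  · rw [if_neg (by linarith), if_pos h]; decide

theorem fin_cases2 {N : ℕ} (J : Fin (N + 2)) : J = 0 ∨ J = 1 ∨ ∃ j : Fin N, J = j.succ.succ := by
  rcases Fin.eq_zero_or_eq_succ J with h | ⟨J', rfl⟩
  · exact Or.inl h
  · rcases Fin.eq_zero_or_eq_succ J' with h | ⟨j, rfl⟩
    · right; left; rw [h]; rfl
    · exact Or.inr (Or.inr ⟨j, rfl⟩)

theorem loop_engine {X : Type} [TopologicalSpace X] [ContractibleSpace X] (N : ℕ) {g : X → X}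
    (hgc : Continuous g) (hgg : ∀ x, g (g x) = x) (F : Fin N → X → ℝ)
    (hFc : ∀ j, Continuous (F j)) (hFg : ∀ j x, F j (g x) = -F j x) (T h : X → ℝ)
    (hTc : Continuous T) (hhc : Continuous h) (hTg : ∀ x, T (g x) = T x)
    (hhg : ∀ x, h (g x) = h x) (hne : ∀ x, (∀ j, F j x = 0) → T x = 0 → h x ≠ 0)
    (pth : Fin 4 → ℝ → X) (hpc : ∀ i, Continuous (pth i)) (hfix : ∀ i t, g (pth i t) = pth i t)
    (hglue : ∀ i, pth i 1 = pth (i + 1) 0) (h0 : ∀ t, 0 < h (pth 0 t))
    (hs : |h (pth 0 0)| < T (pth 0 0)) (he : |h (pth 0 1)| < -T (pth 0 1))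
    (hl : ∀ i, i ≠ 0 → ∀ t, h (pth i t) < |T (pth i t)|) : False := by
  classical
  let v : Fin (N + 2) → X → ℝ := Fin.cons T (Fin.cons h F : Fin (N + 1) → X → ℝ)
  have v0 : v 0 = T := rfl
  have v1 : v 1 = h := rfl
  have v2 : ∀ j : Fin N, v j.succ.succ = F j := fun j => rfl
  have hvc : ∀ J, Continuous (v J) := by
    intro J
    rcases fin_cases2 J with rfl | rfl | ⟨j, rfl⟩
    · exact hTc
    · exact hhc
    · exact hFc j
  have hval : ∀ j : Fin N, ¬ (j.succ.succ : Fin (N + 2)).val < 2 := by
    intro j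
    simp
  have hvg : ∀ J x, v J (g x) = if J.val < 2 then v J x else -v J x := by
    intro J x
    rcases fin_cases2 J with rfl | rfl | ⟨j, rfl⟩
    · rw [if_pos (by simp), v0]; exact hTg x
    · rw [if_pos (by simp), v1]; exact hhg x
    · rw [if_neg (hval j), v2]; exact hFg j x
  have habs : ∀ J x, |v J (g x)| = |v J x| := by
    intro J x
    rw [hvg]
    split_ifs
    · rfl
    · exact abs_neg _
  let am : (Fin (N + 2) → ℝ) → Fin (N + 2) := fun w => (Finite.exists_max w).choose
  have ham : ∀ (w : Fin (N + 2) → ℝ) (i : Fin (N + 2)), w i ≤ w (am w) :=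
    fun w => (Finite.exists_max w).choose_spec
  let Jx : X → Fin (N + 2) := fun x => am (fun J => |v J x|)
  have hJg : ∀ x, Jx (g x) = Jx x := by
    intro x
    show am (fun J => |v J (g x)|) = am (fun J => |v J x|)
    congr 1
    funext J
    exact habs J x
  have hJmax : ∀ x J, |v J x| ≤ |v (Jx x) x| := fun x J => ham (fun J => |v J x|) J
  have hJpos : ∀ x, 0 < |v (Jx x) x| := by
    intro x
    rcases lt_or_eq_of_le (abs_nonneg (v (Jx x) x)) with h1 | h1
    · exact h1
    · exfalso
      have hz : ∀ J, v J x = 0 := by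
        intro J
        have h2 := hJmax x J
        rw [← h1] at h2
        exact abs_eq_zero.1 (le_antisymm h2 (abs_nonneg _))
      exact hne x (fun j => hz j.succ.succ) (hz 0) (hz 1)
  let ℓ : X → ZMod 2 × ℕ := fun x => (sgn (v (Jx x) x), (Jx x).val)
  have hℓ1 : ∀ x, (ℓ x).1 = sgn (v (Jx x) x) := fun _ => rfl
  have hℓ2 : ∀ x, (ℓ x).2 = (Jx x).val := fun _ => rfl
  have hF0 : ∀ i t j, F j (pth i t) = 0 := by
    intro i t j
    have h1 := hFg j (pth i t)
    rw [hfix] at h1
    linarith
  have hJlow : ∀ i t, Jx (pth i t) = 0 ∨ Jx (pth i t) = 1 := by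
    intro i t
    rcases fin_cases2 (Jx (pth i t)) with h1 | h1 | ⟨j, h1⟩
    · exact Or.inl h1
    · exact Or.inr h1
    · exfalso
      have h2 := hJpos (pth i t)
      rw [h1, v2, hF0, abs_zero] at h2
      exact lt_irrefl _ h2
  refine engine_top N hgc (by funext x; exact hgg x) ℓ ?_ (fun x => (Jx x).isLt) ?_ pth hpc hfix
    hglue ?_ ?_ ?_ ?_
  · intro x
    refine Prod.ext ?_ ?_
    · show sgn (v (Jx (g x)) (g x)) = if (Jx x).val < 2 then sgn (v (Jx x) x)
        else sgn (v (Jx x) x) + 1
      rw [hJg, hvg]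
      split_ifs
      · rfl
      · exact sgn_neg (abs_pos.1 (hJpos x))
    · show (Jx (g x)).val = (Jx x).val
      rw [hJg]
  · intro x
    set c := |v (Jx x) x| with hc
    have hcpos : 0 < c := hJpos x
    refine ⟨⋂ J, {y | |v J y - v J x| < c / 4}, ?_, ?_, ?_⟩
    · exact isOpen_iInter_of_finite fun J =>
        isOpen_lt ((hvc J).sub continuous_const).abs continuous_const
    · refine Set.mem_iInter.2 fun J => ?_
      show |v J x - v J x| < c / 4
      rw [sub_self, abs_zero]; positivity
    · intro y hy z hz hyz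
      have hJ : Jx y = Jx z := Fin.ext hyz
      have key : ∀ w, w ∈ (⋂ J, {y | |v J y - v J x| < c / 4}) →
          sgn (v (Jx w) w) = sgn (v (Jx w) x) := by
        intro w hw
        have h1 : ∀ J, |v J w - v J x| < c / 4 := fun J => Set.mem_iInter.1 hw J
        have h2 := h1 (Jx x)
        have h3 := hJmax w (Jx x)
        have h4 := h1 (Jx w)
        have h5 : c - c / 4 ≤ |v (Jx x) w| := by
          have h6 := abs_sub_abs_le_abs_sub (v (Jx x) x) (v (Jx x) w)
          rw [abs_sub_comm] at h6
          rw [← hc] at h6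
          linarith
        have h6 : 3 * c / 4 ≤ |v (Jx w) w| := by linarith
        rw [abs_lt] at h4
        unfold sgn
        rcases le_abs.1 h6 with h7 | h7
        · rw [if_pos (by linarith), if_pos (by linarith [h4.2])]
        · rw [if_neg (by linarith), if_neg (by linarith [h4.1])]
      show sgn (v (Jx y) y) = sgn (v (Jx z) z)
      rw [key y hy, key z hz, hJ]
  · intro t
    rcases hJlow 0 t with h1 | h1
    · have h2 : ℓ (pth 0 t) = (sgn (v (Jx (pth 0 t)) (pth 0 t)), 0) := by
        show (sgn (v (Jx (pth 0 t)) (pth 0 t)), (Jx (pth 0 t)).val) = _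
        rw [h1]; rfl
      rw [h2]
      unfold sgn
      split_ifs
      · exact Or.inl rfl
      · exact Or.inr (Or.inl rfl)
    · right; right
      show (sgn (v (Jx (pth 0 t)) (pth 0 t)), (Jx (pth 0 t)).val) = _
      rw [h1, v1]
      unfold sgn
      rw [if_pos (h0 t)]
      rfl
  · have h1 : Jx (pth 0 0) = 0 := by
      rcases hJlow 0 0 with h1 | h1
      · exact h1
      · exfalso
        have h2 := hJmax (pth 0 0) 0
        rw [h1, v1, v0] at h2
        have h3 := le_abs_self (T (pth 0 0))
        linarith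
    show (sgn (v (Jx (pth 0 0)) (pth 0 0)), (Jx (pth 0 0)).val) = _
    rw [h1, v0]
    unfold sgn
    rw [if_pos (lt_of_le_of_lt (abs_nonneg _) hs)]
    rfl
  · have h1 : Jx (pth 0 1) = 0 := by
      rcases hJlow 0 1 with h1 | h1
      · exact h1
      · exfalso
        have h2 := hJmax (pth 0 1) 0
        rw [h1, v1, v0] at h2
        have h3 := neg_le_abs (T (pth 0 1))
        linarith
    show (sgn (v (Jx (pth 0 1)) (pth 0 1)), (Jx (pth 0 1)).val) = _
    rw [h1, v0]
    unfold sgn
    rw [if_neg]
    · rfl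
    · have h2 := abs_nonneg (h (pth 0 1))
      linarith
  · intro i hi t
    constructor
    · show (Jx (pth i t)).val < 2
      rcases hJlow i t with h1 | h1 <;> rw [h1] <;> simp
    · intro h1
      have h2 : (Jx (pth i t)).val = 1 := congrArg Prod.snd h1
      have h3 : sgn (v (Jx (pth i t)) (pth i t)) = 0 := congrArg Prod.fst h1
      have h4 : Jx (pth i t) = 1 := by
        rcases hJlow i t with h5 | h5
        · rw [h5] at h2; simp at h2
        · exact h5
      rw [h4, v1] at h3
      unfold sgn at h3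
      have h5 : 0 < h (pth i t) := by
        by_contra h6
        rw [if_neg h6] at h3
        exact absurd h3 (by decide)
      have h6 := hJmax (pth i t) 0
      rw [h4, v1, v0, abs_of_pos h5] at h6
      exact absurd (hl i hi t) (not_lt.2 h6)

end Pool.Agent.H71.AV
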