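import Pool.Agent.H71.AV.Refl

/-!
# A measure with few support points is determined by its moments
-/

namespace Pool.Agent.H71.AV

open Pool.Agent.H73.Avr

variable {n : ℕ}

private theorem ri_add (f g : Sph n → ℝ) (w : Sph n →₀ ℝ) : ri (f + g) w = ri f w + ri g w := by
  unfold ri
  rw [← Finsupp.sum_add]
  refine Finsupp.sum_congr fun x _ => ?_
  rw [Pi.add_apply]; ring

private theorem ri_smul (c : ℝ) (f : Sph n → ℝ) (w : Sph n →₀ ℝ) : ri (c • f) w = c * ri f w := by
  unfold ri
  rw [Finsupp.mul_sum]
  refine Finsupp.sum_congr fun x _ => ?_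
  rw [Pi.smul_apply, smul_eq_mul]; ring

/-- functions spanned by real monomials of degree `≤ k` -/
private noncomputable def Rk (n k : ℕ) : Submodule ℝ (Sph n → ℝ) :=
  Submodule.span ℝ {f | ∃ m, m ≤ k ∧ ∃ φ : Fin m → Fin (n + 1), f = rmon φ}

private theorem Rk_mono {k l : ℕ} (hkl : k ≤ l) : Rk n k ≤ Rk n l := by
  apply Submodule.span_mono
  rintro f ⟨m, hm, φ, rfl⟩
  exact ⟨m, by omega, φ, rfl⟩

/-- the linear form attached to a point -/
private noncomputable def rl (y x : Sph n) : ℝ := ∑ i, x.1 i * y.1 i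

private theorem rl_eq_inner (y x : Sph n) : rl y x = inner ℝ x.1 y.1 := by
  rw [PiLp.inner_apply]
  unfold rl
  refine Finset.sum_congr rfl fun i _ => ?_
  simp [mul_comm]

private theorem rl_self (x : Sph n) : rl x x = 1 := by
  rw [rl_eq_inner, real_inner_self_eq_norm_sq, mem_sphere_zero_iff_norm.1 x.2, one_pow]

private theorem rl_ne_one {x y : Sph n} (hxy : x ≠ y) : rl y x ≠ 1 := by
  rw [rl_eq_inner]
  intro h
  apply hxy
  apply Subtype.ext
  exact (inner_eq_one_iff_of_norm_eq_one (mem_sphere_zero_iff_norm.1 x.2)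
    (mem_sphere_zero_iff_norm.1 y.2)).1 h

private theorem rl_mul_mem (y : Sph n) {k : ℕ} {w : Sph n → ℝ} (hw : w ∈ Rk n k) :
    rl y * w ∈ Rk n (k + 1) := by
  unfold Rk at hw
  induction hw using Submodule.span_induction with
  | mem f hf =>
    obtain ⟨m, hm, φ, rfl⟩ := hf
    have : rl y * rmon φ = ∑ i, (y.1 i) • rmon (Fin.cons i φ : Fin (m + 1) → Fin (n + 1)) := by
      funext x
      rw [Finset.sum_apply, Pi.mul_apply]
      unfold rl
      rw [Finset.sum_mul]
      refine Finset.sum_congr rfl fun i _ => ?_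
      rw [Pi.smul_apply, smul_eq_mul, rmon, rmon, Fin.prod_univ_succ (n := m)]
      simp only [Fin.cons_zero, Fin.cons_succ]
      ring
    rw [this]
    exact Submodule.sum_mem _ fun i _ => Submodule.smul_mem _ _ (Submodule.subset_span
      ⟨m + 1, by omega, _, rfl⟩)
  | zero => rw [mul_zero]; exact Submodule.zero_mem _
  | add f g _ _ hf hg => rw [mul_add]; exact Submodule.add_mem _ hf hg
  | smul c f _ hf => rw [mul_smul_comm]; exact Submodule.smul_mem _ _ hf

private theorem prod_mem (s : Finset (Sph n)) :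
    (fun x : Sph n => ∏ y ∈ s, (1 - rl y x)) ∈ Rk n s.card := by
  classical
  induction s using Finset.induction_on with
  | empty =>
    refine Submodule.subset_span ⟨0, le_refl _, Fin.elim0, ?_⟩
    funext x
    simp [rmon]
  | insert y s hy ih =>
    rw [Finset.card_insert_of_notMem hy]
    have : (fun x : Sph n => ∏ y ∈ insert y s, (1 - rl y x)) =
        (fun x : Sph n => ∏ y ∈ s, (1 - rl y x)) -
          rl y * (fun x : Sph n => ∏ y ∈ s, (1 - rl y x)) := by
      funext x
      simp only [Pi.sub_apply, Pi.mul_apply, Finset.prod_insert hy]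
      ring
    rw [this]
    exact Submodule.sub_mem _ (Rk_mono (Nat.le_succ _) ih) (rl_mul_mem y ih)

private theorem ri_eq_of_mem {k : ℕ} {w : Sph n →₀ ℝ}
    (hm : ∀ m ≤ k, ∀ φ : Fin m → Fin (n + 1),
      ri (rmon φ) w = ri (fun x => rmon φ (refl n x)) w)
    {f : Sph n → ℝ} (hf : f ∈ Rk n k) : ri f w = ri (fun x => f (refl n x)) w := by
  unfold Rk at hf
  induction hf using Submodule.span_induction with
  | mem f hf =>
    obtain ⟨m, hm', φ, rfl⟩ := hf
    exact hm m hm' φ
  | zero => simp [ri]
  | add f g _ _ hf hg =>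
    rw [ri_add, hf, hg]
    exact (ri_add (fun x => f (refl n x)) (fun x => g (refl n x)) w).symm
  | smul c f _ hf =>
    rw [ri_smul, hf]
    exact (ri_smul c (fun x => f (refl n x)) w).symm

/-- if all moments of degree at most `2 * p` of a point of the thickening with at most `p` support
points are invariant under the reflection, then so is the point -/
theorem inv_of_moments {n : ℕ} {r : ℝ} {p : ℕ} (μ : AVR (geo n) r)
    (hp : μ.w.support.card ≤ p)
    (hm : ∀ m ≤ 2 * p, ∀ φ : Fin m → Fin (n + 1),
      ri (rmon φ) μ.w = ri (fun x => rmon φ (refl n x)) μ.w) :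
    ∀ x, μ.w (refl n x) = μ.w x := by
  classical
  set S : Finset (Sph n) := μ.w.support ∪ μ.w.support.image (refl n) with hS
  have hcard : S.card ≤ 2 * p := by
    have h1 := Finset.card_union_le μ.w.support (μ.w.support.image (refl n))
    have h2 : (μ.w.support.image (refl n)).card ≤ μ.w.support.card := Finset.card_image_le
    rw [← hS] at h1
    omega
  have hmem : ∀ x, x ∈ S ↔ μ.w x ≠ 0 ∨ μ.w (refl n x) ≠ 0 := by
    intro x
    rw [hS, Finset.mem_union, Finset.mem_image, Finsupp.mem_support_iff]
    constructor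
    · rintro (h | ⟨y, hy, rfl⟩)
      · exact Or.inl h
      · right
        rw [refl_refl]
        exact Finsupp.mem_support_iff.1 hy
    · rintro (h | h)
      · exact Or.inl h
      · exact Or.inr ⟨refl n x, Finsupp.mem_support_iff.2 h, refl_refl x⟩
  intro x0
  by_cases hx0 : x0 ∈ S
  · set f : Sph n → ℝ := fun x => ∏ y ∈ S.erase x0, (1 - rl y x) with hf
    have hfm : f ∈ Rk n (2 * p) := by
      refine Rk_mono ?_ (prod_mem (S.erase x0))
      exact (Finset.card_le_card (Finset.erase_subset _ _)).trans hcard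
    have hf0 : f x0 ≠ 0 := by
      rw [hf]
      refine Finset.prod_ne_zero_iff.2 fun y hy => ?_
      rw [Finset.mem_erase] at hy
      exact sub_ne_zero.2 (rl_ne_one (Ne.symm hy.1)).symm
    have hfz : ∀ x ∈ S, x ≠ x0 → f x = 0 := by
      intro x hx hne
      rw [hf]
      exact Finset.prod_eq_zero (Finset.mem_erase.2 ⟨hne, hx⟩) (by rw [rl_self, sub_self])
    have h1 : ri f μ.w = μ.w x0 * f x0 := by
      unfold ri
      rw [Finsupp.sum]
      by_cases h0 : μ.w x0 = 0
      · rw [h0, zero_mul]
        refine Finset.sum_eq_zero fun x hx => ?_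
        have hx' := Finsupp.mem_support_iff.1 hx
        rw [hfz x ((hmem x).2 (Or.inl hx')) (by rintro rfl; exact hx' h0), mul_zero]
      · rw [Finset.sum_eq_single x0]
        · intro x hx hne
          rw [hfz x ((hmem x).2 (Or.inl (Finsupp.mem_support_iff.1 hx))) hne, mul_zero]
        · intro h
          exact absurd (Finsupp.mem_support_iff.2 h0) h
    have h2 : ri (fun x => f (refl n x)) μ.w = μ.w (refl n x0) * f x0 := by
      unfold ri
      rw [Finsupp.sum]
      change ∑ x ∈ μ.w.support, μ.w x * f (refl n x) = μ.w (refl n x0) * f x0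
      by_cases h0 : μ.w (refl n x0) = 0
      · rw [h0, zero_mul]
        refine Finset.sum_eq_zero fun x hx => ?_
        have hx' := Finsupp.mem_support_iff.1 hx
        rw [hfz (refl n x) ((hmem _).2 (Or.inr (by rw [refl_refl]; exact hx')))
          (by rintro rfl; rw [refl_refl] at h0; exact hx' h0), mul_zero]
      · rw [Finset.sum_eq_single (refl n x0)]
        · rw [refl_refl]
        · intro x hx hne
          rw [hfz (refl n x) ((hmem _).2 (Or.inr (by
            rw [refl_refl]; exact Finsupp.mem_support_iff.1 hx)))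
            (fun h => hne (by rw [← h, refl_refl])), mul_zero]
        · intro h
          exact absurd (Finsupp.mem_support_iff.2 h0) h
    have h3 := ri_eq_of_mem hm hfm
    rw [h1, h2] at h3
    exact (mul_right_cancel₀ hf0 h3).symm
  · have h : ¬ (μ.w x0 ≠ 0 ∨ μ.w (refl n x0) ≠ 0) := fun h => hx0 ((hmem x0).2 h)
    push Not at h
    rw [h.1, h.2]

end Pool.Agent.H71.AV
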