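import Pool.Agent.H71.AV.Refl

/-!
# Four paths of reflection invariant measures
-/

namespace Pool.Agent.H71.AV

open Pool.Agent.H73.Avr

/-! ## Additivity of cost and integral -/

theorem cost_add {X : Type} (d : X → X → ℝ) (π ρ : (X × X) →₀ ℝ) :
    cost d (π + ρ) = cost d π + cost d ρ := by
  unfold cost
  exact Finsupp.sum_add_index' (fun _ => zero_mul _) (fun _ _ _ => add_mul _ _ _)

theorem cost_single {X : Type} (d : X → X → ℝ) (x y : X) (a : ℝ) :
    cost d (Finsupp.single (x, y) a) = a * d x y := by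
  unfold cost
  rw [Finsupp.sum_single_index (zero_mul _)]

theorem ri_add {n : ℕ} (f : Sph n → ℝ) (v w : Sph n →₀ ℝ) :
    ri f (v + w) = ri f v + ri f w := by
  unfold ri
  exact Finsupp.sum_add_index' (fun _ => zero_mul _) (fun _ _ _ => add_mul _ _ _)

theorem ri_single {n : ℕ} (f : Sph n → ℝ) (x : Sph n) (a : ℝ) :
    ri f (Finsupp.single x a) = a * f x := by
  unfold ri
  rw [Finsupp.sum_single_index (zero_mul _)]

theorem total_add {X : Type} (v w : X →₀ ℝ) :
    ((v + w).sum fun _ a => a) = (v.sum fun _ a => a) + (w.sum fun _ a => a) :=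
  Finsupp.sum_add_index' (fun _ => rfl) (fun _ _ _ => rfl)

theorem total_single {X : Type} (x : X) (a : ℝ) :
    ((Finsupp.single x a).sum fun _ a => a) = a := Finsupp.sum_single_index rfl

theorem single_nonneg {X : Type} (x y : X) {a : ℝ} (ha : 0 ≤ a) :
    0 ≤ (Finsupp.single x a) y := by
  classical
  rw [Finsupp.single_apply]
  split_ifs
  · exact ha
  · exact le_rfl

/-! ## Geodesic distance -/

theorem geo_comm {n : ℕ} (x y : Sph n) : geo n x y = geo n y x :=
  InnerProductGeometry.angle_comm _ _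

theorem geo_self {n : ℕ} (x : Sph n) : geo n x x = 0 := by
  refine InnerProductGeometry.angle_self ?_
  intro h
  have h1 := mem_sphere_zero_iff_norm.1 x.2
  rw [h, norm_zero] at h1
  exact zero_ne_one h1

theorem geo_le_pi {n : ℕ} (x y : Sph n) : geo n x y ≤ Real.pi :=
  InnerProductGeometry.angle_le_pi _ _

theorem geo_eq_arccos {n : ℕ} (x y : Sph n) : geo n x y = Real.arccos (inner ℝ x.1 y.1) := by
  unfold geo InnerProductGeometry.angle
  rw [mem_sphere_zero_iff_norm.1 x.2, mem_sphere_zero_iff_norm.1 y.2]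
  simp

theorem le_geo_of_inner {n : ℕ} {r : ℝ} (hr : r ≤ 2 * Real.pi / 3) (x y : Sph n)
    (h : inner ℝ x.1 y.1 ≤ -1 / 2) : r ≤ geo n x y := by
  rw [geo_eq_arccos]
  have h1 : Real.arccos (-1 / 2) ≤ Real.arccos (inner ℝ x.1 y.1) := Real.arccos_le_arccos h
  have h2 : Real.arccos (-1 / 2) = 2 * Real.pi / 3 := by
    have h3 : (-1 / 2 : ℝ) = Real.cos (2 * Real.pi / 3) := by
      have h4 : 2 * Real.pi / 3 = Real.pi - Real.pi / 3 := by ring
      rw [h4, Real.cos_pi_sub, Real.cos_pi_div_three]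
      norm_num
    rw [h3]
    refine Real.arccos_cos ?_ ?_
    · positivity
    · have := Real.pi_pos
      linarith
  linarith

/-! ## Continuity from couplings -/

theorem cont_of_coupling {n : ℕ} {r : ℝ} (f : ℝ → AVR (geo n) r) (C : ℝ → ℝ → ℝ)
    (hC : ∀ t, Continuous (C t)) (h0 : ∀ t, C t t = 0)
    (h : ∀ t t', ∃ π, IsCoupling π (f t).w (f t').w ∧ cost (geo n) π ≤ C t t') :
    Continuous f := by
  refine continuous_def.2 fun V hV => ?_
  rw [Metric.isOpen_iff]
  intro t ht
  obtain ⟨ε, hε, hball⟩ := hV (f t) ht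
  have h1 := (hC t).tendsto t
  rw [h0, Metric.tendsto_nhds_nhds] at h1
  obtain ⟨δ, hδ, h2⟩ := h1 ε hε
  refine ⟨δ, hδ, fun t' ht' => hball _ ?_⟩
  obtain ⟨π, hπ, hc⟩ := h t t'
  have h3 := h2 (Metric.mem_ball.1 ht')
  rw [Real.dist_eq, sub_zero] at h3
  exact lt_of_le_of_lt (W1_le geo_nonneg hπ) (lt_of_le_of_lt hc (lt_of_le_of_lt (le_abs_self _) h3))

/-! ## Measures on three points -/

/-- weights `1 - s`, `s/2`, `s/2` -/
noncomputable def w3 {n : ℕ} (p q1 q2 : Sph n) (s : ℝ) : Sph n →₀ ℝ :=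
  Finsupp.single p (1 - s) + Finsupp.single q1 (s / 2) + Finsupp.single q2 (s / 2)

theorem w3_support {n : ℕ} {p q1 q2 : Sph n} {s : ℝ} {x : Sph n}
    (hx : x ∈ (w3 p q1 q2 s).support) : x = p ∨ x = q1 ∨ x = q2 := by
  classical
  by_contra hcon
  push Not at hcon
  obtain ⟨h1, h2, h3⟩ := hcon
  rw [Finsupp.mem_support_iff] at hx
  apply hx
  unfold w3
  rw [Finsupp.add_apply, Finsupp.add_apply, Finsupp.single_eq_of_ne h1,
    Finsupp.single_eq_of_ne h2, Finsupp.single_eq_of_ne h3]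
  simp

/-- the measure `(1 - s) p + s (q1 + q2) / 2` -/
noncomputable def mk3 {n : ℕ} {r : ℝ} (p q1 q2 : Sph n) (s : ℝ) (h0 : 0 ≤ s) (h1 : s ≤ 1)
    (hp1 : r ≤ geo n p q1) (hp2 : r ≤ geo n p q2) (hq : q1 ≠ q2 → r ≤ geo n q1 q2) :
    AVR (geo n) r where
  w := w3 p q1 q2 s
  nonneg := by
    intro x
    unfold w3
    rw [Finsupp.add_apply, Finsupp.add_apply]
    have e1 := single_nonneg p x (a := 1 - s) (by linarith)
    have e2 := single_nonneg q1 x (a := s / 2) (by linarith)
    have e3 := single_nonneg q2 x (a := s / 2) (by linarith)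
    linarith
  total := by
    unfold w3
    rw [total_add, total_add, total_single, total_single, total_single]
    ring
  spread := by
    intro x hx y hy hxy
    rcases w3_support hx with rfl | rfl | rfl <;> rcases w3_support hy with h | h | h <;>
      subst h
    · exact absurd rfl hxy
    · exact hp1
    · exact hp2
    · rw [geo_comm]; exact hp1
    · exact absurd rfl hxy
    · exact hq hxy
    · rw [geo_comm]; exact hp2
    · rw [geo_comm]; exact hq (Ne.symm hxy)
    · exact absurd rfl hxy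

/-- the measure `(q1 + q2) / 2` -/
noncomputable def mk2 {n : ℕ} {r : ℝ} (q1 q2 : Sph n) (hq : r ≤ geo n q1 q2) :
    AVR (geo n) r where
  w := Finsupp.single q1 (1 / 2) + Finsupp.single q2 (1 / 2)
  nonneg := by
    intro x
    rw [Finsupp.add_apply]
    have e2 := single_nonneg q1 x (a := 1 / 2) (by norm_num)
    have e3 := single_nonneg q2 x (a := 1 / 2) (by norm_num)
    linarith
  total := by
    rw [total_add, total_single, total_single]
    norm_num
  spread := by
    classical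
    have hsup : ∀ x ∈ (Finsupp.single q1 (1 / 2 : ℝ) + Finsupp.single q2 (1 / 2)).support,
        x = q1 ∨ x = q2 := by
      intro x hx
      by_contra hcon
      push Not at hcon
      obtain ⟨h2, h3⟩ := hcon
      rw [Finsupp.mem_support_iff] at hx
      apply hx
      rw [Finsupp.add_apply, Finsupp.single_eq_of_ne h2, Finsupp.single_eq_of_ne h3]
      simp
    intro x hx y hy hxy
    rcases hsup x hx with rfl | rfl <;> rcases hsup y hy with h | h <;> subst h
    · exact absurd rfl hxy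
    · exact hq
    · rw [geo_comm]; exact hq
    · exact absurd rfl hxy

/-- coupling of two measures on the same three points -/
theorem coupling3 {n : ℕ} (p q1 q2 : Sph n) {s s' : ℝ} (h0 : 0 ≤ s) (h1 : s ≤ 1)
    (h0' : 0 ≤ s') (h1' : s' ≤ 1) :
    ∃ π, IsCoupling π (w3 p q1 q2 s) (w3 p q1 q2 s') ∧
      cost (geo n) π ≤ Real.pi * |s - s'| := by
  classical
  set m := min s s' with hm
  have hms : m ≤ s := min_le_left _ _
  have hms' : m ≤ s' := min_le_right _ _
  have hm0 : 0 ≤ m := le_min h0 h0'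
  have hmax : s + s' - m ≤ 1 := by
    rcases le_total s s' with h | h
    · rw [hm, min_eq_left h]; linarith
    · rw [hm, min_eq_right h]; linarith
  have habs : s + s' - 2 * m = |s - s'| := by
    rcases le_total s s' with h | h
    · rw [hm, min_eq_left h, abs_of_nonpos (by linarith)]; ring
    · rw [hm, min_eq_right h, abs_of_nonneg (by linarith)]; ring
  refine ⟨Finsupp.single (p, p) (1 - s - s' + m) + Finsupp.single (q1, q1) (m / 2) +
    Finsupp.single (q2, q2) (m / 2) + Finsupp.single (p, q1) ((s' - m) / 2) +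
    Finsupp.single (p, q2) ((s' - m) / 2) + Finsupp.single (q1, p) ((s - m) / 2) +
    Finsupp.single (q2, p) ((s - m) / 2), ⟨?_, ?_, ?_⟩, ?_⟩
  · intro x
    simp only [Finsupp.add_apply]
    have e1 := single_nonneg (p, p) x (a := 1 - s - s' + m) (by linarith)
    have e2 := single_nonneg (q1, q1) x (a := m / 2) (by linarith)
    have e3 := single_nonneg (q2, q2) x (a := m / 2) (by linarith)
    have e4 := single_nonneg (p, q1) x (a := (s' - m) / 2) (by linarith)
    have e5 := single_nonneg (p, q2) x (a := (s' - m) / 2) (by linarith)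
    have e6 := single_nonneg (q1, p) x (a := (s - m) / 2) (by linarith)
    have e7 := single_nonneg (q2, p) x (a := (s - m) / 2) (by linarith)
    linarith
  · simp only [Finsupp.mapDomain_add, Finsupp.mapDomain_single, w3]
    ext z
    simp only [Finsupp.add_apply, Finsupp.single_apply]
    split_ifs <;> ring
  · simp only [Finsupp.mapDomain_add, Finsupp.mapDomain_single, w3]
    ext z
    simp only [Finsupp.add_apply, Finsupp.single_apply]
    split_ifs <;> ring
  · simp only [cost_add, cost_single, geo_self]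
    have g1 := geo_le_pi p q1
    have g2 := geo_le_pi p q2
    have g3 := geo_le_pi q1 p
    have g4 := geo_le_pi q2 p
    have f1 : (s' - m) / 2 * geo n p q1 ≤ (s' - m) / 2 * Real.pi :=
      mul_le_mul_of_nonneg_left g1 (by linarith)
    have f2 : (s' - m) / 2 * geo n p q2 ≤ (s' - m) / 2 * Real.pi :=
      mul_le_mul_of_nonneg_left g2 (by linarith)
    have f3 : (s - m) / 2 * geo n q1 p ≤ (s - m) / 2 * Real.pi :=
      mul_le_mul_of_nonneg_left g3 (by linarith)
    have f4 : (s - m) / 2 * geo n q2 p ≤ (s - m) / 2 * Real.pi :=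
      mul_le_mul_of_nonneg_left g4 (by linarith)
    rw [← habs]
    nlinarith [f1, f2, f3, f4]

/-- the parameter clamped to `[0, 1]` -/
noncomputable def cl (t : ℝ) : ℝ := max 0 (min t 1)

theorem cl_nonneg (t : ℝ) : 0 ≤ cl t := le_max_left _ _

theorem cl_le_one (t : ℝ) : cl t ≤ 1 := max_le zero_le_one (min_le_right _ _)

theorem cl_continuous : Continuous cl :=
  continuous_const.max (continuous_id.min continuous_const)

theorem cl_zero : cl 0 = 0 := by simp [cl]

theorem cl_one : cl 1 = 1 := by simp [cl]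

/-! ## Points in the plane of the coordinates `0` and `1` -/

/-- the vector `u e_0 + v e_j` -/
noncomputable def vec {n : ℕ} (j : Fin (n + 1)) (u v : ℝ) : EuclideanSpace ℝ (Fin (n + 1)) :=
  WithLp.toLp 2 (fun i => if i = 0 then u else if i = j then v else 0)

theorem vec_apply {n : ℕ} (j : Fin (n + 1)) (u v : ℝ) (i : Fin (n + 1)) :
    vec j u v i = if i = 0 then u else if i = j then v else 0 := rfl

theorem inner_vec {n : ℕ} {j : Fin (n + 1)} (hj : j ≠ 0) (u v u' v' : ℝ) :
    inner ℝ (vec j u v) (vec j u' v') = u * u' + v * v' := by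
  classical
  rw [PiLp.inner_apply]
  rw [Finset.sum_eq_add (0 : Fin (n + 1)) j (Ne.symm hj)]
  · simp only [vec_apply, if_true, if_neg hj]
    simp [mul_comm]
  · intro c _ hc
    simp [vec_apply, hc.1, hc.2]
  · intro h; exact absurd (Finset.mem_univ _) h
  · intro h; exact absurd (Finset.mem_univ _) h

/-- the point `u e_0 + v e_j` of the sphere -/
noncomputable def pt {n : ℕ} {j : Fin (n + 1)} (hj : j ≠ 0) (u v : ℝ) (h : u * u + v * v = 1) :
    Sph n :=
  ⟨vec j u v, by
    rw [mem_sphere_zero_iff_norm]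
    have h1 := inner_vec hj u v u v
    rw [real_inner_self_eq_norm_sq, h] at h1
    have h2 := norm_nonneg (vec j u v)
    nlinarith⟩

theorem pt_val {n : ℕ} {j : Fin (n + 1)} (hj : j ≠ 0) (u v : ℝ) (h : u * u + v * v = 1) :
    (pt hj u v h).1 = vec j u v := rfl

theorem pt_zero {n : ℕ} {j : Fin (n + 1)} (hj : j ≠ 0) (u v : ℝ) (h : u * u + v * v = 1) :
    (pt hj u v h).1 0 = u := by
  rw [pt_val, vec_apply, if_pos rfl]

theorem refl_pt {n : ℕ} {j : Fin (n + 1)} (hj : j ≠ 0) (u v : ℝ) (h : u * u + v * v = 1)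
    (h' : u * u + -v * -v = 1) : refl n (pt hj u v h) = pt hj u (-v) h' := by
  apply Subtype.ext
  ext i
  rw [refl_apply, pt_val, pt_val, vec_apply, vec_apply]
  by_cases h0 : i = 0
  · simp [h0]
  · by_cases h1 : i = j
    · simp [h1, hj]
    · simp [h0, h1]

theorem ri_w3 {n : ℕ} (f : Sph n → ℝ) (p q1 q2 : Sph n) (s : ℝ) :
    ri f (w3 p q1 q2 s) = (1 - s) * f p + s / 2 * f q1 + s / 2 * f q2 := by
  unfold w3
  rw [ri_add, ri_add, ri_single, ri_single, ri_single]

theorem eq_refl_iff {n : ℕ} {p q : Sph n} (h : refl n p = q) (x : Sph n) :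
    p = refl n x ↔ q = x := by
  constructor
  · rintro rfl
    rw [← h, refl_refl]
  · rintro rfl
    rw [← h, refl_refl]

theorem w3_refl {n : ℕ} {p q1 q2 : Sph n} (hp : refl n p = p) (hq : refl n q1 = q2) (s : ℝ)
    (x : Sph n) : w3 p q1 q2 s (refl n x) = w3 p q1 q2 s x := by
  classical
  have hq' : refl n q2 = q1 := by rw [← hq, refl_refl]
  unfold w3
  simp only [Finsupp.add_apply, Finsupp.single_apply, eq_refl_iff hp, eq_refl_iff hq,
    eq_refl_iff hq']
  ring

theorem cont_mk3 {n : ℕ} {r : ℝ} (p q1 q2 : Sph n) (σ : ℝ → ℝ) (hσ : Continuous σ)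
    (h0 : ∀ t, 0 ≤ σ t) (h1 : ∀ t, σ t ≤ 1) (hp1 : r ≤ geo n p q1) (hp2 : r ≤ geo n p q2)
    (hq : q1 ≠ q2 → r ≤ geo n q1 q2) :
    Continuous (fun t => mk3 p q1 q2 (σ t) (h0 t) (h1 t) hp1 hp2 hq) := by
  refine cont_of_coupling _ (fun t t' => Real.pi * |σ t - σ t'|) ?_ ?_ ?_
  · intro t
    exact continuous_const.mul (continuous_const.sub hσ).abs
  · intro t
    simp
  · intro t t'
    exact coupling3 p q1 q2 (h0 t) (h1 t) (h0 t') (h1 t')

theorem sqrt_aux {u : ℝ} (hu : u * u ≤ 1 / 4) :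
    u * u + Real.sqrt (1 - u * u) * Real.sqrt (1 - u * u) = 1 := by
  rw [Real.mul_self_sqrt (by linarith)]
  ring

theorem sqrt_aux' {u : ℝ} (hu : u * u ≤ 1 / 4) :
    u * u + -Real.sqrt (1 - u * u) * -Real.sqrt (1 - u * u) = 1 := by
  rw [neg_mul_neg]
  exact sqrt_aux hu

theorem geo_ab {n : ℕ} {r : ℝ} (hr : r ≤ 2 * Real.pi / 3) {j : Fin (n + 1)} (hj : j ≠ 0) {u : ℝ}
    (hu : u * u ≤ 1 / 4) : r ≤ geo n (pt hj u _ (sqrt_aux hu)) (pt hj u _ (sqrt_aux' hu)) := by
  refine le_geo_of_inner hr _ _ ?_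
  rw [pt_val, pt_val, inner_vec hj]
  have h := sqrt_aux hu
  nlinarith [h]

theorem half_sub_cl (t : ℝ) : (1 / 2 - cl t) * (1 / 2 - cl t) ≤ 1 / 4 := by
  have h0 := cl_nonneg t
  have h1 := cl_le_one t
  nlinarith

theorem cont_mk2 {n : ℕ} {r : ℝ} (hr : r ≤ 2 * Real.pi / 3) {j : Fin (n + 1)} (hj : j ≠ 0) :
    Continuous (fun t : ℝ => mk2 (r := r) (pt hj (1 / 2 - cl t) _ (sqrt_aux (half_sub_cl t)))
      (pt hj (1 / 2 - cl t) _ (sqrt_aux' (half_sub_cl t))) (geo_ab hr hj (half_sub_cl t))) := by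
  have hu : Continuous (fun t : ℝ => 1 / 2 - cl t) := continuous_const.sub cl_continuous
  refine cont_of_coupling _ (fun t t' => Real.arccos ((1 / 2 - cl t) * (1 / 2 - cl t') +
    Real.sqrt (1 - (1 / 2 - cl t) * (1 / 2 - cl t)) *
      Real.sqrt (1 - (1 / 2 - cl t') * (1 / 2 - cl t')))) ?_ ?_ ?_
  · intro t
    exact Real.continuous_arccos.comp ((continuous_const.mul hu).add
      (continuous_const.mul (continuous_const.sub (hu.mul hu)).sqrt))
  · intro t
    show Real.arccos _ = 0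
    rw [sqrt_aux (half_sub_cl t), Real.arccos_one]
  · intro t t'
    refine ⟨Finsupp.single (pt hj (1 / 2 - cl t) _ (sqrt_aux (half_sub_cl t)),
      pt hj (1 / 2 - cl t') _ (sqrt_aux (half_sub_cl t'))) (1 / 2) +
      Finsupp.single (pt hj (1 / 2 - cl t) _ (sqrt_aux' (half_sub_cl t)),
      pt hj (1 / 2 - cl t') _ (sqrt_aux' (half_sub_cl t'))) (1 / 2), ⟨?_, ?_, ?_⟩, ?_⟩
    · intro x
      rw [Finsupp.add_apply]
      exact add_nonneg (single_nonneg _ _ (by norm_num)) (single_nonneg _ _ (by norm_num))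
    · rw [Finsupp.mapDomain_add, Finsupp.mapDomain_single, Finsupp.mapDomain_single]
      rfl
    · rw [Finsupp.mapDomain_add, Finsupp.mapDomain_single, Finsupp.mapDomain_single]
      rfl
    · rw [cost_add, cost_single, cost_single, geo_eq_arccos, geo_eq_arccos, pt_val, pt_val,
        pt_val, pt_val, inner_vec hj, inner_vec hj, neg_mul_neg]
      apply le_of_eq
      ring

/-- the four paths -/
theorem exists_paths {n : ℕ} (hn : 1 ≤ n) {r : ℝ} (hr : r ≤ 2 * Real.pi / 3) :
    ∃ pth : Fin 4 → ℝ → AVR (geo n) r, (∀ i, Continuous (pth i)) ∧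
      (∀ i t x, (pth i t).w (refl n x) = (pth i t).w x) ∧
      (∀ i, pth i 1 = pth (i + 1) 0) ∧
      (∀ t, ri (fun x => x.1 0 ^ 2) (pth 0 t).w = 1) ∧
      ri (fun x => x.1 0) (pth 0 0).w = 1 ∧ ri (fun x => x.1 0) (pth 0 1).w = -1 ∧
      (∀ i, i ≠ 0 → ∀ t, ri (fun x => x.1 0 ^ 2) (pth i t).w - 3 / 4 <
        |ri (fun x => x.1 0) (pth i t).w|) := by
  classical
  obtain ⟨j, hj⟩ : ∃ j : Fin (n + 1), j ≠ 0 :=
    ⟨⟨1, by omega⟩, fun h => by
      have := congrArg Fin.val h
      simp at this⟩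
  have hN : (1 : ℝ) * 1 + 0 * 0 = 1 := by norm_num
  have hS : (-1 : ℝ) * -1 + 0 * 0 = 1 := by norm_num
  have hu1 : (1 / 2 : ℝ) * (1 / 2) ≤ 1 / 4 := by norm_num
  have hu2 : (-(1 / 2) : ℝ) * -(1 / 2) ≤ 1 / 4 := by norm_num
  set N : Sph n := pt hj 1 0 hN with hNdef
  set S : Sph n := pt hj (-1) 0 hS with hSdef
  set a1 : Sph n := pt hj (1 / 2) _ (sqrt_aux hu1) with ha1
  set b1 : Sph n := pt hj (1 / 2) _ (sqrt_aux' hu1) with hb1
  set a2 : Sph n := pt hj (-(1 / 2)) _ (sqrt_aux hu2) with ha2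
  set b2 : Sph n := pt hj (-(1 / 2)) _ (sqrt_aux' hu2) with hb2
  have gNS : r ≤ geo n N S := by
    refine le_geo_of_inner hr _ _ ?_
    rw [hNdef, hSdef, pt_val, pt_val, inner_vec hj]; norm_num
  have gSa : r ≤ geo n S a1 := by
    refine le_geo_of_inner hr _ _ ?_
    rw [hSdef, ha1, pt_val, pt_val, inner_vec hj]; norm_num
  have gSb : r ≤ geo n S b1 := by
    refine le_geo_of_inner hr _ _ ?_
    rw [hSdef, hb1, pt_val, pt_val, inner_vec hj]; norm_num
  have gNa : r ≤ geo n N a2 := by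
    refine le_geo_of_inner hr _ _ ?_
    rw [hNdef, ha2, pt_val, pt_val, inner_vec hj]; norm_num
  have gNb : r ≤ geo n N b2 := by
    refine le_geo_of_inner hr _ _ ?_
    rw [hNdef, hb2, pt_val, pt_val, inner_vec hj]; norm_num
  have rN : refl n N = N := by
    rw [hNdef, refl_pt hj 1 0 hN (by norm_num)]
    apply Subtype.ext
    rw [pt_val, pt_val, neg_zero]
  have rS : refl n S = S := by
    rw [hSdef, refl_pt hj (-1) 0 hS (by norm_num)]
    apply Subtype.ext
    rw [pt_val, pt_val, neg_zero]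
  have rab : ∀ {u : ℝ} (hu : u * u ≤ 1 / 4),
      refl n (pt hj u _ (sqrt_aux hu)) = pt hj u _ (sqrt_aux' hu) := fun {u} hu =>
    refl_pt hj u _ _ _
  let p0 : ℝ → AVR (geo n) r := fun t =>
    mk3 N S S (cl t) (cl_nonneg t) (cl_le_one t) gNS gNS (fun h => absurd rfl h)
  let p1 : ℝ → AVR (geo n) r := fun t =>
    mk3 S a1 b1 (cl t) (cl_nonneg t) (cl_le_one t) gSa gSb (fun _ => geo_ab hr hj hu1)
  let p2 : ℝ → AVR (geo n) r := fun t =>
    mk2 (pt hj (1 / 2 - cl t) _ (sqrt_aux (half_sub_cl t)))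
      (pt hj (1 / 2 - cl t) _ (sqrt_aux' (half_sub_cl t))) (geo_ab hr hj (half_sub_cl t))
  let p3 : ℝ → AVR (geo n) r := fun t =>
    mk3 N a2 b2 (1 - cl t) (sub_nonneg.2 (cl_le_one t)) (by linarith [cl_nonneg t]) gNa gNb
      (fun _ => geo_ab hr hj hu2)
  have v0 : ∀ f : Sph n → ℝ, ∀ t, ri f (p0 t).w =
      (1 - cl t) * f N + cl t / 2 * f S + cl t / 2 * f S := fun f t => ri_w3 f _ _ _ _
  have v1 : ∀ f : Sph n → ℝ, ∀ t, ri f (p1 t).w =
      (1 - cl t) * f S + cl t / 2 * f a1 + cl t / 2 * f b1 := fun f t => ri_w3 f _ _ _ _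
  have v3 : ∀ f : Sph n → ℝ, ∀ t, ri f (p3 t).w =
      (1 - (1 - cl t)) * f N + (1 - cl t) / 2 * f a2 + (1 - cl t) / 2 * f b2 :=
    fun f t => ri_w3 f _ _ _ _
  have v2 : ∀ f : Sph n → ℝ, ∀ t, ri f (p2 t).w =
      1 / 2 * f (pt hj (1 / 2 - cl t) _ (sqrt_aux (half_sub_cl t))) +
      1 / 2 * f (pt hj (1 / 2 - cl t) _ (sqrt_aux' (half_sub_cl t))) := by
    intro f t
    show ri f (Finsupp.single _ _ + Finsupp.single _ _) = _
    rw [ri_add, ri_single, ri_single]
  have zN : N.1 0 = 1 := pt_zero hj _ _ _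
  have zS : S.1 0 = -1 := pt_zero hj _ _ _
  have za1 : a1.1 0 = 1 / 2 := pt_zero hj _ _ _
  have zb1 : b1.1 0 = 1 / 2 := pt_zero hj _ _ _
  have za2 : a2.1 0 = -(1 / 2) := pt_zero hj _ _ _
  have zb2 : b2.1 0 = -(1 / 2) := pt_zero hj _ _ _
  refine ⟨![p0, p1, p2, p3], ?_, ?_, ?_, ?_, ?_, ?_, ?_⟩
  · intro i
    fin_cases i
    · exact cont_mk3 N S S cl cl_continuous cl_nonneg cl_le_one gNS gNS (fun h => absurd rfl h)
    · exact cont_mk3 S a1 b1 cl cl_continuous cl_nonneg cl_le_one gSa gSb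
        (fun _ => geo_ab hr hj hu1)
    · exact cont_mk2 hr hj
    · exact cont_mk3 N a2 b2 (fun t => 1 - cl t) (continuous_const.sub cl_continuous)
        (fun t => sub_nonneg.2 (cl_le_one t)) (fun t => by linarith [cl_nonneg t]) gNa gNb
        (fun _ => geo_ab hr hj hu2)
  · intro i t x
    fin_cases i
    · exact w3_refl rN rS _ x
    · exact w3_refl rS (rab hu1) _ x
    · show (Finsupp.single _ _ + Finsupp.single _ _ : Sph n →₀ ℝ) (refl n x) =
        (Finsupp.single _ _ + Finsupp.single _ _ : Sph n →₀ ℝ) x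
      have h1 := rab (half_sub_cl t)
      have h2 : refl n (pt hj (1 / 2 - cl t) _ (sqrt_aux' (half_sub_cl t))) =
          pt hj (1 / 2 - cl t) _ (sqrt_aux (half_sub_cl t)) := by rw [← h1, refl_refl]
      simp only [Finsupp.add_apply, Finsupp.single_apply, eq_refl_iff h1, eq_refl_iff h2]
      ring
    · exact w3_refl rN (rab hu2) _ x
  · intro i
    fin_cases i
    · apply AVR.ext
      show w3 N S S (cl 1) = w3 S a1 b1 (cl 0)
      rw [cl_one, cl_zero]
      unfold w3
      ext z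
      simp only [Finsupp.add_apply, Finsupp.single_apply]
      split_ifs <;> ring
    · apply AVR.ext
      show w3 S a1 b1 (cl 1) = (Finsupp.single _ _ + Finsupp.single _ _ : Sph n →₀ ℝ)
      have e1 : pt hj (1 / 2 - cl 0) _ (sqrt_aux (half_sub_cl 0)) = a1 := by
        apply Subtype.ext
        rw [ha1, pt_val, pt_val, cl_zero, sub_zero]
      have e2 : pt hj (1 / 2 - cl 0) _ (sqrt_aux' (half_sub_cl 0)) = b1 := by
        apply Subtype.ext
        rw [hb1, pt_val, pt_val, cl_zero, sub_zero]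
      rw [e1, e2, cl_one]
      unfold w3
      ext z
      simp only [Finsupp.add_apply, Finsupp.single_apply]
      split_ifs <;> ring
    · apply AVR.ext
      show (Finsupp.single _ _ + Finsupp.single _ _ : Sph n →₀ ℝ) = w3 N a2 b2 (1 - cl 0)
      have e0 : (1 / 2 - cl 1 : ℝ) = -(1 / 2) := by rw [cl_one]; norm_num
      have e1 : pt hj (1 / 2 - cl 1) _ (sqrt_aux (half_sub_cl 1)) = a2 := by
        apply Subtype.ext
        rw [ha2, pt_val, pt_val, e0]
      have e2 : pt hj (1 / 2 - cl 1) _ (sqrt_aux' (half_sub_cl 1)) = b2 := by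
        apply Subtype.ext
        rw [hb2, pt_val, pt_val, e0]
      rw [e1, e2, cl_zero]
      unfold w3
      ext z
      simp only [Finsupp.add_apply, Finsupp.single_apply]
      split_ifs <;> ring
    · apply AVR.ext
      show w3 N a2 b2 (1 - cl 1) = w3 N S S (cl 0)
      rw [cl_one, cl_zero]
      unfold w3
      ext z
      simp only [Finsupp.add_apply, Finsupp.single_apply]
      split_ifs <;> ring
  · intro t
    show ri _ (p0 t).w = 1
    rw [v0]
    simp only [zN, zS]
    ring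
  · show ri _ (p0 0).w = 1
    rw [v0]
    simp only [zN, zS, cl_zero]
    ring
  · show ri _ (p0 1).w = -1
    rw [v0]
    simp only [zN, zS, cl_one]
    ring
  · intro i hi t
    have c0 := cl_nonneg t
    have c1 := cl_le_one t
    fin_cases i
    · exact absurd rfl hi
    · show ri _ (p1 t).w - 3 / 4 < |ri _ (p1 t).w|
      rw [v1, v1]
      simp only [zS, za1, zb1]
      rcases le_total (cl t) (2 / 3) with h | h
      · rw [abs_of_nonpos (by linarith)]
        linarith
      · refine lt_of_lt_of_le ?_ (abs_nonneg _)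
        linarith
    · show ri _ (p2 t).w - 3 / 4 < |ri _ (p2 t).w|
      rw [v2, v2]
      simp only [pt_zero]
      refine lt_of_lt_of_le ?_ (abs_nonneg _)
      have := half_sub_cl t
      nlinarith
    · show ri _ (p3 t).w - 3 / 4 < |ri _ (p3 t).w|
      rw [v3, v3]
      simp only [zN, za2, zb2]
      rcases le_total (1 / 3) (cl t) with h | h
      · rw [abs_of_nonneg (by linarith)]
        linarith
      · refine lt_of_lt_of_le ?_ (abs_nonneg _)
        linarith

end Pool.Agent.H71.AV
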