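import Pool.Agent.H71.AV.LoopEngine
import Pool.Agent.H71.AV.Mom
import Pool.Agent.H71.AV.Key
import Pool.Agent.H71.AV.Paths

/-!
# Anti-Vietoris-Rips thickenings of spheres at obtuse scales are not contractible
-/

namespace Pool.Agent.H71.AV

open Pool.Agent.H73.Avr

theorem continuous_coord {n : ℕ} {r : ℝ} :
    Continuous (fun μ : AVR (geo n) r => ri (fun x => x.1 0) μ.w) :=
  continuous_ri (L := 1) one_pos fun x y => by rw [one_mul]; exact abs_coord_sub_le x y 0

theorem continuous_coord_sq {n : ℕ} {r : ℝ} :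
    Continuous (fun μ : AVR (geo n) r => ri (fun x => x.1 0 ^ 2) μ.w) := by
  refine continuous_ri (L := 2) two_pos fun x y => ?_
  have h1 : x.1 0 ^ 2 - y.1 0 ^ 2 = (x.1 0 + y.1 0) * (x.1 0 - y.1 0) := by ring
  rw [h1, abs_mul]
  have h2 : |x.1 0 + y.1 0| ≤ 2 := by
    refine (abs_add_le _ _).trans ?_
    have h3 := abs_coord_le x 0
    have h4 := abs_coord_le y 0
    linarith
  have h3 := abs_coord_sub_le x y 0
  exact mul_le_mul h2 h3 (abs_nonneg _) two_pos.le

theorem not_contractible_obtuse {n : ℕ} (hn : 1 ≤ n) {r : ℝ} (hr1 : Real.pi / 2 < r)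
    (hr2 : r ≤ 2 * Real.pi / 3) : ¬ ContractibleSpace (AVR (geo n) r) := by
  classical
  intro hc
  have hr0 : 0 < r := lt_trans (by positivity) hr1
  obtain ⟨p, hp⟩ := exists_packing n hr0
  obtain ⟨pth, hpc, hpi, hglue, hq0, hT0, hT1, hl⟩ := exists_paths hn hr2
  let J : Type := Σ m : Fin (2 * p + 1), (Fin m → Fin (n + 1))
  let e : J ≃ Fin (Fintype.card J) := Fintype.equivFin J
  let G : J → AVR (geo n) r → ℝ := fun j μ =>
    ri (rmon j.2) μ.w - ri (rmon j.2) (gA n r μ).w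
  have hgA : ∀ i t, gA n r (pth i t) = pth i t := fun i t => gA_eq_self (hpi i t)
  refine loop_engine (X := AVR (geo n) r) (Fintype.card J) (g := gA n r) gA_continuous gA_gA
    (fun k => G (e.symm k)) ?_ ?_ (fun μ => ri (fun x => x.1 0) μ.w)
    (fun μ => ri (fun x => x.1 0 ^ 2) μ.w - 3 / 4) continuous_coord
    (continuous_coord_sq.sub continuous_const) ?_ ?_ ?_ pth hpc hgA hglue ?_ ?_ ?_ ?_
  · intro k
    exact (continuous_rmon _).sub ((continuous_rmon _).comp gA_continuous)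
  · intro k μ
    show ri (rmon (e.symm k).2) (gA n r μ).w - ri (rmon (e.symm k).2) (gA n r (gA n r μ)).w =
      -(ri (rmon (e.symm k).2) μ.w - ri (rmon (e.symm k).2) (gA n r μ).w)
    rw [gA_gA]; ring
  · intro μ
    show ri (fun x => x.1 0) (gA n r μ).w = ri (fun x => x.1 0) μ.w
    rw [ri_gA]
    congr 1
  · intro μ
    show ri (fun x => x.1 0 ^ 2) (gA n r μ).w - 3 / 4 = ri (fun x => x.1 0 ^ 2) μ.w - 3 / 4
    rw [ri_gA]
    congr 1
  · intro μ hF hT hh
    have hinv : ∀ x, μ.w (refl n x) = μ.w x := by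
      refine inv_of_moments μ (hp _ μ.spread) ?_
      intro m hm φ
      have h1 := hF (e ⟨⟨m, by omega⟩, φ⟩)
      simp only [Equiv.symm_apply_apply] at h1
      have h2 : ri (rmon φ) μ.w - ri (rmon φ) (gA n r μ).w = 0 := h1
      rw [ri_gA] at h2
      linarith
    have h3 := key hr1 μ hinv hT
    have h4 : ri (fun x => x.1 0 ^ 2) μ.w - 3 / 4 = 0 := hh
    exact h3 (by linarith)
  · intro t
    show 0 < ri (fun x => x.1 0 ^ 2) (pth 0 t).w - 3 / 4
    rw [hq0]; norm_num
  · show |ri (fun x => x.1 0 ^ 2) (pth 0 0).w - 3 / 4| < ri (fun x => x.1 0) (pth 0 0).w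
    rw [hq0, hT0, abs_of_pos (by norm_num)]; norm_num
  · show |ri (fun x => x.1 0 ^ 2) (pth 0 1).w - 3 / 4| < -ri (fun x => x.1 0) (pth 0 1).w
    rw [hq0, hT1, abs_of_pos (by norm_num)]; norm_num
  · intro i hi t
    exact hl i hi t

end Pool.Agent.H71.AV
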