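import Pool.Agent.H73.Avr.Main

/-!
# The reflection of the sphere fixing the poles
-/

namespace Pool.Agent.H71.AV

open Pool.Agent.H73.Avr

/-- the linear reflection which keeps the coordinate `0` and negates the other coordinates -/
noncomputable def lrefl {n : ℕ} (x : EuclideanSpace ℝ (Fin (n + 1))) :
    EuclideanSpace ℝ (Fin (n + 1)) :=
  WithLp.toLp 2 (fun i => if i = 0 then x i else -x i)

theorem lrefl_apply {n : ℕ} (x : EuclideanSpace ℝ (Fin (n + 1))) (i : Fin (n + 1)) :
    lrefl x i = if i = 0 then x i else -x i := rfl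

theorem inner_lrefl {n : ℕ} (x y : EuclideanSpace ℝ (Fin (n + 1))) :
    inner ℝ (lrefl x) (lrefl y) = inner ℝ x y := by
  rw [PiLp.inner_apply, PiLp.inner_apply]
  refine Finset.sum_congr rfl fun i _ => ?_
  rw [lrefl_apply, lrefl_apply]
  split_ifs <;> simp

theorem norm_lrefl {n : ℕ} (x : EuclideanSpace ℝ (Fin (n + 1))) : ‖lrefl x‖ = ‖x‖ := by
  have h1 := inner_lrefl x x
  rw [real_inner_self_eq_norm_sq, real_inner_self_eq_norm_sq] at h1
  exact (sq_eq_sq₀ (norm_nonneg _) (norm_nonneg _)).1 h1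

theorem lrefl_lrefl {n : ℕ} (x : EuclideanSpace ℝ (Fin (n + 1))) : lrefl (lrefl x) = x := by
  ext i
  rw [lrefl_apply, lrefl_apply]
  split_ifs <;> simp

/-- the reflection of the sphere which keeps the coordinate `0` and negates the others -/
noncomputable def refl (n : ℕ) (x : Sph n) : Sph n :=
  ⟨lrefl x.1, by rw [mem_sphere_zero_iff_norm, norm_lrefl, mem_sphere_zero_iff_norm.1 x.2]⟩

theorem refl_val {n : ℕ} (x : Sph n) : (refl n x).1 = lrefl x.1 := rfl

theorem refl_apply {n : ℕ} (x : Sph n) (i : Fin (n + 1)) :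
    (refl n x).1 i = if i = 0 then x.1 i else -x.1 i := rfl

theorem refl_refl {n : ℕ} (x : Sph n) : refl n (refl n x) = x := Subtype.ext (lrefl_lrefl _)

theorem refl_injective {n : ℕ} : Function.Injective (refl n) := fun x y h => by
  rw [← refl_refl x, h, refl_refl]

theorem geo_refl {n : ℕ} (x y : Sph n) : geo n (refl n x) (refl n y) = geo n x y := by
  unfold geo InnerProductGeometry.angle
  rw [refl_val, refl_val, inner_lrefl, norm_lrefl, norm_lrefl]

/-- integral of a real function -/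
noncomputable def ri {n : ℕ} (f : Sph n → ℝ) (w : Sph n →₀ ℝ) : ℝ := w.sum fun x a => a * f x

/-- the action of the reflection on the thickening -/
noncomputable def gA (n : ℕ) (r : ℝ) : AVR (geo n) r → AVR (geo n) r :=
  AVR.map (refl n) geo_refl refl_injective

theorem gA_w {n : ℕ} {r : ℝ} (μ : AVR (geo n) r) : (gA n r μ).w = μ.w.mapDomain (refl n) := rfl

theorem gA_gA {n : ℕ} {r : ℝ} (μ : AVR (geo n) r) : gA n r (gA n r μ) = μ := by
  apply AVR.ext
  rw [gA_w, gA_w, ← Finsupp.mapDomain_comp]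
  have : refl n ∘ refl n = id := funext refl_refl
  rw [this, Finsupp.mapDomain_id]

theorem gA_apply {n : ℕ} {r : ℝ} (μ : AVR (geo n) r) (x : Sph n) :
    (gA n r μ).w x = μ.w (refl n x) := by
  rw [gA_w]
  conv_lhs => rw [← refl_refl x]
  exact Finsupp.mapDomain_apply refl_injective _ _

theorem gA_eq_self {n : ℕ} {r : ℝ} {μ : AVR (geo n) r} (h : ∀ x, μ.w (refl n x) = μ.w x) :
    gA n r μ = μ := by
  apply AVR.ext
  ext x
  rw [gA_apply, h]

theorem gA_continuous {n : ℕ} {r : ℝ} : Continuous (gA n r) :=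
  continuous_map geo_nonneg (refl n) geo_refl refl_injective

theorem ri_gA {n : ℕ} {r : ℝ} (f : Sph n → ℝ) (μ : AVR (geo n) r) :
    ri f (gA n r μ).w = ri (fun x => f (refl n x)) μ.w := by
  unfold ri
  rw [gA_w, Finsupp.sum_mapDomain_index]
  · intro b; simp
  · intro b m1 m2; ring

theorem ri_eq_re {n : ℕ} (f : Sph n → ℝ) (w : Sph n →₀ ℝ) :
    ri f w = (integ (fun x => (f x : ℂ)) w).re := by
  unfold ri integ
  rw [Finsupp.sum, Finsupp.sum, Complex.re_sum]
  refine Finset.sum_congr rfl fun x _ => ?_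
  rw [← Complex.ofReal_mul, Complex.ofReal_re]

theorem continuous_ri {n : ℕ} {r : ℝ} {f : Sph n → ℝ} {L : ℝ} (hL0 : 0 < L)
    (hL : ∀ x y, |f x - f y| ≤ L * geo n x y) : Continuous (fun μ : AVR (geo n) r => ri f μ.w) := by
  have h1 : Continuous (fun μ : AVR (geo n) r => integ (fun x => (f x : ℂ)) μ.w) := by
    refine continuous_integ hL0 (fun x y => ?_)
    rw [← Complex.ofReal_sub, Complex.norm_real, Real.norm_eq_abs]
    exact hL x y
  have h2 : (fun μ : AVR (geo n) r => ri f μ.w) =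
      fun μ : AVR (geo n) r => (integ (fun x => (f x : ℂ)) μ.w).re := funext fun μ => ri_eq_re f μ.w
  rw [h2]
  exact Complex.continuous_re.comp h1

theorem abs_coord_le {n : ℕ} (x : Sph n) (i : Fin (n + 1)) : |x.1 i| ≤ 1 := by
  have h := PiLp.norm_apply_le x.1 i
  rw [mem_sphere_zero_iff_norm.1 x.2, Real.norm_eq_abs] at h
  exact h

theorem abs_coord_sub_le {n : ℕ} (x y : Sph n) (i : Fin (n + 1)) :
    |x.1 i - y.1 i| ≤ geo n x y := by
  have h := PiLp.norm_apply_le (x.1 - y.1) i
  rw [Real.norm_eq_abs] at h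
  exact h.trans (chord_le_geo x y)

/-- real monomials -/
noncomputable def rmon {n m : ℕ} (φ : Fin m → Fin (n + 1)) (x : Sph n) : ℝ := ∏ i, x.1 (φ i)

theorem abs_rmon_le {n m : ℕ} (φ : Fin m → Fin (n + 1)) (x : Sph n) : |rmon φ x| ≤ 1 := by
  unfold rmon
  rw [Finset.abs_prod]
  exact Finset.prod_le_one (fun i _ => abs_nonneg _) (fun i _ => abs_coord_le x _)

theorem rmon_lipschitz {n m : ℕ} (φ : Fin m → Fin (n + 1)) (x y : Sph n) :
    |rmon φ x - rmon φ y| ≤ m * geo n x y := by
  induction m with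
  | zero => simp [rmon]
  | succ m ih =>
    have e : ∀ x : Sph n, rmon φ x = x.1 (φ 0) * rmon (fun i => φ i.succ) x := by
      intro x
      unfold rmon
      rw [Fin.prod_univ_succ]
    rw [e, e]
    have h1 : x.1 (φ 0) * rmon (fun i => φ i.succ) x - y.1 (φ 0) * rmon (fun i => φ i.succ) y
        = x.1 (φ 0) * (rmon (fun i => φ i.succ) x - rmon (fun i => φ i.succ) y) +
          (x.1 (φ 0) - y.1 (φ 0)) * rmon (fun i => φ i.succ) y := by ring
    rw [h1]
    refine (abs_add_le _ _).trans ?_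
    rw [abs_mul, abs_mul]
    have h2 := ih (fun i => φ i.succ)
    have h3 := abs_coord_le x (φ 0)
    have h4 := abs_rmon_le (fun i => φ i.succ) y
    have h5 := abs_coord_sub_le x y (φ 0)
    have h6 := geo_nonneg x y
    push_cast
    calc |x.1 (φ 0)| * |rmon (fun i => φ i.succ) x - rmon (fun i => φ i.succ) y| +
        |x.1 (φ 0) - y.1 (φ 0)| * |rmon (fun i => φ i.succ) y|
        ≤ 1 * (m * geo n x y) + geo n x y * 1 := by gcongr
      _ = (m + 1) * geo n x y := by ring

theorem continuous_rmon {n m : ℕ} {r : ℝ} (φ : Fin m → Fin (n + 1)) :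
    Continuous (fun μ : AVR (geo n) r => ri (rmon φ) μ.w) := by
  refine continuous_ri (L := m + 1) (by positivity) ?_
  intro x y
  refine (rmon_lipschitz φ x y).trans ?_
  have := geo_nonneg x y
  nlinarith

end Pool.Agent.H71.AV
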