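import Pool.Agent.H71.AV.Disc2

/-!
# The topological form of the loop argument
-/

namespace Pool.Agent.H71.AV

open Pool.Agent.H73.Avr

variable {X : Type}

theorem theta_joint_continuous [TopologicalSpace X] {H : X → ℝ → X}
    (hH : Continuous (fun p : X × ℝ => H p.1 p.2)) {g : X → X} (hg : Continuous g)
    (k : ℕ) (a : ℕ → ℕ) :
    Continuous (fun p : X × (ℕ → ℝ) => theta H g p.1 k a p.2) := by
  induction k with
  | zero => exact continuous_fst
  | succ k ih =>
    have h1 : Continuous (fun p : X × (ℕ → ℝ) => g^[a k] (theta H g p.1 k a p.2)) :=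
      (hg.iterate _).comp ih
    exact hH.comp (h1.prodMk ((continuous_apply k).comp continuous_snd))

/-- the set of the points which the iterated cone construction assigns to a small box over a
small piece of a path -/
def Bx (H : X → ℝ → X) (g : X → X) (p : ℝ → X) (D k j0 : ℕ) (a j : ℕ → ℕ) : Set X :=
  {x | ∃ τ : ℝ, ((j0 : ℝ) / D ≤ τ ∧ τ ≤ (j0 + 1 : ℝ) / D) ∧ ∃ t : ℕ → ℝ,
    (∀ i < k, (j i : ℝ) / D ≤ t i ∧ t i ≤ (j i + 1 : ℝ) / D) ∧ x = theta H g (p τ) k a t}

theorem box_compat [TopologicalSpace X] {H : X → ℝ → X}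
    (hHc : Continuous (fun p : X × ℝ => H p.1 p.2)) {g : X → X} (hgc : Continuous g)
    (ℓ : X → ZMod 2 × ℕ) (U : X → Set X) (hUo : ∀ x, IsOpen (U x)) (hUx : ∀ x, x ∈ U x)
    (hUc : ∀ x, ∀ y ∈ U x, ∀ z ∈ U x, Compat (ℓ y) (ℓ z)) {p : ℝ → X} (hp : Continuous p)
    (k : ℕ) (α : Fin k → Fin 2) : ∃ D0 : ℕ, ∀ D ≥ D0, ∀ a : ℕ → ℕ,
      (∀ i (hi : i < k), a i = α ⟨i, hi⟩) → ∀ j0 < D, ∀ j : ℕ → ℕ, (∀ i < k, j i < D) →
      ∀ x ∈ Bx H g p D k j0 a j, ∀ y ∈ Bx H g p D k j0 a j, Compat (ℓ x) (ℓ y) := by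
  let a0 : ℕ → ℕ := fun i => if h : i < k then α ⟨i, h⟩ else 0
  let ex : (Fin k → ℝ) → (ℕ → ℝ) := fun u i => if h : i < k then u ⟨i, h⟩ else 0
  have hex : Continuous ex := by
    apply continuous_pi
    intro i
    by_cases h : i < k
    · simp only [ex, h, dif_pos]; exact continuous_apply _
    · simp only [ex, h, dif_neg, not_false_eq_true]; exact continuous_const
  let f : ℝ × (Fin k → ℝ) → X := fun u => theta H g (p u.1) k a0 (ex u.2)
  have hf : Continuous f :=
    (theta_joint_continuous hHc hgc k a0).comp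
      ((hp.comp continuous_fst).prodMk (hex.comp continuous_snd))
  have hK : IsCompact (Set.Icc (0 : ℝ) 1 ×ˢ Set.Icc (0 : Fin k → ℝ) 1) :=
    isCompact_Icc.prod isCompact_Icc
  obtain ⟨δ, hδ, hball⟩ := lebesgue_number_lemma_of_metric hK
    (c := fun x : X => f ⁻¹' (U x)) (fun x => (hUo x).preimage hf)
    (fun u _ => Set.mem_iUnion.2 ⟨f u, hUx _⟩)
  refine ⟨⌊1 / δ⌋₊ + 1, fun D hD a ha j0 hj0 j hj => ?_⟩
  have hDpos : (0 : ℝ) < D := by
    have : 0 < D := by omega
    exact_mod_cast this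
  have hDδ : 1 / (D : ℝ) < δ := by
    have h1 : 1 / δ < (⌊1 / δ⌋₊ : ℝ) + 1 := Nat.lt_floor_add_one _
    have h2 : ((⌊1 / δ⌋₊ + 1 : ℕ) : ℝ) ≤ D := by exact_mod_cast hD
    push_cast at h2
    rw [div_lt_iff₀ hDpos]
    rw [div_lt_iff₀ hδ] at h1
    nlinarith
  let u0 : ℝ × (Fin k → ℝ) := ((j0 : ℝ) / D, fun i => (j i : ℝ) / D)
  have hu0 : u0 ∈ Set.Icc (0 : ℝ) 1 ×ˢ Set.Icc (0 : Fin k → ℝ) 1 := by
    refine ⟨⟨?_, ?_⟩, ?_, ?_⟩
    · simp only [u0]; positivity
    · simp only [u0]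
      rw [div_le_one hDpos]
      exact_mod_cast hj0.le
    · intro i; simp only [u0, Pi.zero_apply]; positivity
    · intro i
      simp only [u0, Pi.one_apply]
      rw [div_le_one hDpos]
      exact_mod_cast (hj i i.2).le
  obtain ⟨x, hx⟩ := hball u0 hu0
  have near : ∀ m : ℕ, ∀ s : ℝ, (m : ℝ) / D ≤ s → s ≤ (m + 1 : ℝ) / D →
      |s - (m : ℝ) / D| < δ := by
    intro m s h3 h4
    have h5 : ((m : ℝ) + 1) / D = (m : ℝ) / D + 1 / D := by ring
    rw [h5] at h4
    rw [abs_lt]
    constructor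
    · linarith
    · linarith
  have hin : ∀ y ∈ Bx H g p D k j0 a j, y ∈ U x := by
    rintro y ⟨τ, hτ, t, ht, rfl⟩
    have h1 : theta H g (p τ) k a t = f (τ, fun i => t i) := by
      apply theta_congr
      · intro i hi; simp only [a0, hi, dif_pos]; exact ha i hi
      · intro i hi; simp only [ex, hi, dif_pos]
    rw [h1]
    have h2 : ((τ, fun i => t i) : ℝ × (Fin k → ℝ)) ∈ Metric.ball u0 δ := by
      rw [Metric.mem_ball, Prod.dist_eq, max_lt_iff]
      constructor
      · rw [Real.dist_eq]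
        exact near j0 τ hτ.1 hτ.2
      · rw [dist_pi_lt_iff hδ]
        intro i
        rw [Real.dist_eq]
        exact near (j i) (t i) (ht i i.2).1 (ht i i.2).2
    exact hx h2
  intro y hy z hz
  exact hUc x y (hin y hy) z (hin z hz)

/-- a contractible space with an involution has no equivariant locally compatible labelling for
which a loop of fixed points is mapped to a cycle of odd degree -/
theorem engine_top {X : Type} [TopologicalSpace X] [ContractibleSpace X] (M : ℕ) {g : X → X}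
    (hgc : Continuous g) (hg : g^[2] = id) (ℓ : X → ZMod 2 × ℕ) (hℓ : ∀ x, ℓ (g x) = fl (ℓ x))
    (hM : ∀ x, (ℓ x).2 < M + 2)
    (hloc : ∀ x, ∃ U : Set X, IsOpen U ∧ x ∈ U ∧ ∀ y ∈ U, ∀ z ∈ U, Compat (ℓ y) (ℓ z))
    (pth : Fin 4 → ℝ → X) (hpc : ∀ i, Continuous (pth i)) (hfix : ∀ i t, g (pth i t) = pth i t)
    (hglue : ∀ i, pth i 1 = pth (i + 1) 0)
    (hl0 : ∀ t, ℓ (pth 0 t) = (0, 0) ∨ ℓ (pth 0 t) = (1, 0) ∨ ℓ (pth 0 t) = (0, 1))
    (hs : ℓ (pth 0 0) = (0, 0)) (he : ℓ (pth 0 1) = (1, 0))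
    (hl : ∀ i, i ≠ 0 → ∀ t, (ℓ (pth i t)).2 < 2 ∧ ℓ (pth i t) ≠ (0, 1)) : False := by
  obtain ⟨x1, ⟨Hh⟩⟩ := id_nullhomotopic X
  let H : X → ℝ → X := fun x t => Hh (Set.projIcc 0 1 zero_le_one t, x)
  have hHc : Continuous (fun p : X × ℝ => H p.1 p.2) := by
    exact Hh.continuous.comp ((continuous_projIcc.comp continuous_snd).prodMk continuous_fst)
  have hH0 : ∀ x, H x 0 = x := by
    intro x
    show Hh (Set.projIcc 0 1 zero_le_one 0, x) = x
    rw [Set.projIcc_left]
    exact Hh.apply_zero x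
  have hH1 : ∀ x, H x 1 = x1 := by
    intro x
    show Hh (Set.projIcc 0 1 zero_le_one 1, x) = x1
    rw [Set.projIcc_right]
    exact Hh.apply_one x
  choose U hUo hUx hUc using hloc
  have hleb := fun (i : Fin 4) (k : ℕ) (α : Fin k → Fin 2) =>
    box_compat hHc hgc ℓ U hUo hUx hUc (hpc i) k α
  choose D0 hD0 using hleb
  let D : ℕ := (Finset.range (M + 2)).sup
    (fun k => Finset.univ.sup (fun i : Fin 4 => Finset.univ.sup (fun α => D0 i k α))) + 1
  have hDpos : 0 < D := Nat.succ_pos _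
  have hDR : (0 : ℝ) < D := by exact_mod_cast hDpos
  let F : ℕ → Set (Set X) := fun k => {S | ∃ i : Fin 4, ∃ j0 < D, ∃ a : ℕ → ℕ,
    (∀ i < k, a i < 2) ∧ ∃ j : ℕ → ℕ, (∀ i < k, j i < D) ∧ S = Bx H g (pth i) D k j0 a j}
  refine engine_disc2 M hg ℓ hℓ hM (fun i x => H x ((i : ℝ) / D)) D x1 ?_ ?_
    (fun i j => pth i ((j : ℝ) / D)) (fun i j => hfix i _) ?_ F ?_ ?_ ?_
    (fun j _ => hl0 _) ?_ ?_ (fun i hi j _ => hl i hi _)
  · intro x
    show H x (((0 : ℕ) : ℝ) / D) = x
    rw [Nat.cast_zero, zero_div]; exact hH0 x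
  · intro x
    show H x ((D : ℝ) / D) = x1
    rw [div_self hDR.ne']; exact hH1 x
  · intro i
    show pth i ((D : ℝ) / D) = pth (i + 1) (((0 : ℕ) : ℝ) / D)
    rw [div_self hDR.ne', Nat.cast_zero, zero_div]
    exact hglue i
  · intro i j hj
    refine ⟨Bx H g (pth i) D 0 j (fun _ => 0) (fun _ => 0),
      ⟨i, j, hj, fun _ => 0, by simp, fun _ => 0, by simp, rfl⟩, ?_, ?_⟩
    · exact ⟨(j : ℝ) / D, ⟨le_rfl, by gcongr; linarith⟩, fun _ => 0, by simp, rfl⟩
    · exact ⟨((j + 1 : ℕ) : ℝ) / D, ⟨by push_cast; gcongr; linarith, by push_cast; exact le_rfl⟩,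
        fun _ => 0, by simp, rfl⟩
  · rintro k S ⟨i0, j0, hj0, a, ha, j, hj, rfl⟩ s hs' i hi
    refine ⟨Bx H g (pth i0) D (k + 1) j0 (Function.update a k s) (Function.update j k i),
      ⟨i0, j0, hj0, _, ?_, _, ?_, rfl⟩, ?_⟩
    · intro i' hi'
      by_cases h : i' = k
      · rw [h, Function.update_self]; exact hs'
      · rw [Function.update_of_ne h]; exact ha i' (by omega)
    · intro i' hi'
      by_cases h : i' = k
      · rw [h, Function.update_self]; exact hi
      · rw [Function.update_of_ne h]; exact hj i' (by omega)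
    · rintro x ⟨τ, hτ, t, ht, rfl⟩
      have main : ∀ c : ℝ, (i : ℝ) / D ≤ c → c ≤ (i + 1 : ℝ) / D →
          H (g^[s] (theta H g (pth i0 τ) k a t)) c ∈
            Bx H g (pth i0) D (k + 1) j0 (Function.update a k s) (Function.update j k i) := by
        intro c hc1 hc2
        refine ⟨τ, hτ, Function.update t k c, ?_, ?_⟩
        · intro i' hi'
          by_cases h : i' = k
          · rw [h, Function.update_self, Function.update_self]; exact ⟨hc1, hc2⟩
          · rw [Function.update_of_ne h, Function.update_of_ne h]; exact ht i' (by omega)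
        · show H (g^[s] (theta H g (pth i0 τ) k a t)) c =
            H (g^[Function.update a k s k] (theta H g (pth i0 τ) k (Function.update a k s)
              (Function.update t k c))) (Function.update t k c k)
          rw [Function.update_self, Function.update_self]
          congr 2
          apply theta_congr
          · intro i' hi'; rw [Function.update_of_ne (by omega)]
          · intro i' hi'; rw [Function.update_of_ne (by omega)]
      constructor
      · exact main _ le_rfl (by gcongr; linarith)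
      · show H (g^[s] (theta H g (pth i0 τ) k a t)) (((i + 1 : ℕ) : ℝ) / D) ∈ _
        apply main
        · push_cast; gcongr; linarith
        · push_cast; exact le_rfl
  · rintro k hk S ⟨i0, j0, hj0, a, ha, j, hj, rfl⟩ x hx y hy
    let α : Fin k → Fin 2 := fun i => ⟨a i, ha i i.2⟩
    have hDk : D0 i0 k α ≤ D := by
      have h1 : D0 i0 k α ≤ Finset.univ.sup (fun α => D0 i0 k α) :=
        Finset.le_sup (f := fun α => D0 i0 k α) (Finset.mem_univ α)
      have h2 : Finset.univ.sup (fun α => D0 i0 k α) ≤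
          Finset.univ.sup (fun i : Fin 4 => Finset.univ.sup (fun α => D0 i k α)) :=
        Finset.le_sup (f := fun i : Fin 4 => Finset.univ.sup (fun α => D0 i k α))
          (Finset.mem_univ i0)
      have h3 : Finset.univ.sup (fun i : Fin 4 => Finset.univ.sup (fun α => D0 i k α)) ≤
          (Finset.range (M + 2)).sup
            (fun k => Finset.univ.sup (fun i : Fin 4 => Finset.univ.sup (fun α => D0 i k α))) :=
        Finset.le_sup
          (f := fun k => Finset.univ.sup (fun i : Fin 4 => Finset.univ.sup (fun α => D0 i k α)))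
          (Finset.mem_range.2 (by omega))
      exact ((h1.trans h2).trans h3).trans (Nat.le_succ _)
    exact hD0 i0 k α D hDk a (fun i hi => rfl) j0 hj0 j hj x hx y hy
  · show ℓ (pth 0 (((0 : ℕ) : ℝ) / D)) = (0, 0)
    rw [Nat.cast_zero, zero_div]; exact hs
  · show ℓ (pth 0 ((D : ℝ) / D)) = (1, 0)
    rw [div_self hDR.ne']; exact he

end Pool.Agent.H71.AV
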